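import Mathlib

/-! Edge-query games on graphs with vertex set `ℕ`: definitions. -/

open Set

namespace V11258.EQ

/-- The set `[ℕ]²` of possible edges: unordered pairs of distinct natural numbers. -/
abbrev Edge : Type := {e : Sym2 ℕ // ¬ e.IsDiag}

/-- A finite position: the moves made so far, in order. A move consists of the edge chosen by
Seeker and its colour given by Hider (`true` is green, `false` is red). -/
abbrev Pos : Type := List (Edge × Bool)

/-- A run of `ω` turns. -/
abbrev Run : Type := ℕ → Edge × Bool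

/-- The position after `n` turns of a run. -/
def pos (m : Run) (n : ℕ) : Pos := (List.range n).map m

/-- The edges which have been coloured in a position. -/
def asked (p : Pos) : List Edge := p.map Prod.fst

/-- A run is legal when Seeker always chooses a white edge. -/
def Legal (m : Run) : Prop := ∀ n, (m n).1 ∉ asked (pos m n)

/-- The set `G_∞` of green edges at the end of the run. -/
def Green (m : Run) : Set Edge := {e | ∃ n, m n = (e, true)}

/-- The set `W_∞` of white edges at the end of the run. -/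
def White (m : Run) : Set Edge := {e | ∀ n, (m n).1 ≠ e}

/-- The set `P_∞` of graphs `H` with `G_∞ ⊆ H ⊆ G_∞ ∪ W_∞`. -/
def Poss (m : Run) : Set (SimpleGraph ℕ) :=
  {H | (∀ e ∈ Green m, e.1 ∈ H.edgeSet) ∧ ∀ e : Edge, e.1 ∈ H.edgeSet → e ∈ Green m ∪ White m}

/-- Seeker wins the run. -/
def SeekerWinsRun (S : Set (SimpleGraph ℕ)) (m : Run) : Prop :=
  (White m).Nonempty ∧ (Poss m ⊆ S ∨ Poss m ∩ S = ∅)

/-- Seeker has a winning strategy. -/
def SeekerWins (S : Set (SimpleGraph ℕ)) : Prop :=
  ∃ σ : Pos → Edge, (∀ p, σ p ∉ asked p) ∧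
    ∀ m : Run, (∀ n, (m n).1 = σ (pos m n)) → SeekerWinsRun S m

/-- Hider has a winning strategy. -/
def HiderWins (S : Set (SimpleGraph ℕ)) : Prop :=
  ∃ τ : Pos → Edge → Bool,
    ∀ m : Run, Legal m → (∀ n, (m n).2 = τ (pos m n) (m n).1) → ¬ SeekerWinsRun S m

/-- A graph property: a set of graphs on `ℕ` closed under isomorphism. -/
def IsProperty (S : Set (SimpleGraph ℕ)) : Prop :=
  ∀ G ∈ S, ∀ G' : SimpleGraph ℕ, Nonempty (G ≃g G') → G' ∈ S

/-- The game is determined. -/
def Determined (S : Set (SimpleGraph ℕ)) : Prop := SeekerWins S ∨ HiderWins S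

/-! ### Basic facts -/

@[simp] lemma pos_zero (m : Run) : pos m 0 = [] := rfl

lemma pos_succ (m : Run) (n : ℕ) : pos m (n + 1) = pos m n ++ [m n] := by
  simp [pos, List.range_succ]

@[simp] lemma pos_length (m : Run) (n : ℕ) : (pos m n).length = n := by simp [pos]

lemma pos_prefix (m : Run) {k n : ℕ} (h : k ≤ n) : pos m k <+: pos m n := by
  induction n, h using Nat.le_induction with
  | base => exact List.prefix_refl _
  | succ n hn ih => rw [pos_succ]; exact ih.trans (List.prefix_append _ _)

lemma mem_pos {m : Run} {n : ℕ} {x : Edge × Bool} : x ∈ pos m n ↔ ∃ k < n, m k = x := by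
  simp [pos]

lemma mem_asked_pos {m : Run} {n : ℕ} {e : Edge} : e ∈ asked (pos m n) ↔ ∃ k < n, (m k).1 = e := by
  simp [asked, pos]

lemma asked_mono {p q : Pos} (h : p <+: q) {e : Edge} (he : e ∈ asked p) : e ∈ asked q := by
  obtain ⟨t, rfl⟩ := h
  simp only [asked, List.map_append, List.mem_append]
  exact Or.inl he

lemma mem_asked {p : Pos} {e : Edge} : e ∈ asked p ↔ ∃ b, (e, b) ∈ p := by
  simp [asked]

lemma asked_append (p : Pos) (x : Edge × Bool) (e : Edge) :
    e ∈ asked (p ++ [x]) ↔ e ∈ asked p ∨ e = x.1 := by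
  simp [asked, eq_comm]

lemma legal_inj {m : Run} (h : Legal m) {i j : ℕ} (hij : (m i).1 = (m j).1) : i = j := by
  rcases lt_trichotomy i j with hlt | heq | hgt
  · exact absurd (mem_asked_pos.2 ⟨i, hlt, hij⟩) (h j)
  · exact heq
  · exact absurd (mem_asked_pos.2 ⟨j, hgt, hij.symm⟩) (h i)

/-- In a legal run, `P_∞` is the set of graphs which agree with all the answers. -/
lemma mem_poss {m : Run} (h : Legal m) {H : SimpleGraph ℕ} :
    H ∈ Poss m ↔ ∀ n, (m n).1.1 ∈ H.edgeSet ↔ (m n).2 = true := by
  constructor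
  · rintro ⟨h1, h2⟩ n
    constructor
    · intro hn
      rcases h2 _ hn with ⟨k, hk⟩ | hw
      · have hkn : (m k).1 = (m n).1 := by rw [hk]
        have := legal_inj h hkn
        subst this
        rw [hk]
      · exact absurd rfl (hw n)
    · intro hn
      exact h1 (m n).1 ⟨n, by rw [← hn]⟩
  · intro hH
    refine ⟨?_, ?_⟩
    · rintro e ⟨n, hn⟩
      have := (hH n).2 (by rw [hn])
      rwa [hn] at this
    · intro e he
      by_cases hw : e ∈ White m
      · exact Or.inr hw
      · left
        simp only [White, mem_ofPred_eq, not_forall, not_not] at hw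
        obtain ⟨n, hn⟩ := hw
        refine ⟨n, ?_⟩
        have h3 : (m n).2 = true := (hH n).1 (by rw [hn]; exact he)
        exact Prod.ext hn h3

/-- A graph agrees with a position. -/
def Con (p : Pos) (H : SimpleGraph ℕ) : Prop := ∀ x ∈ p, x.1.1 ∈ H.edgeSet ↔ x.2 = true

lemma Con.mono {p q : Pos} (h : p <+: q) {H : SimpleGraph ℕ} (hq : Con q H) : Con p H :=
  fun x hx => hq x (h.subset hx)

lemma con_pos {m : Run} (h : Legal m) {H : SimpleGraph ℕ} (hH : H ∈ Poss m) (n : ℕ) :
    Con (pos m n) H := by
  intro x hx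
  obtain ⟨k, -, rfl⟩ := mem_pos.1 hx
  exact (mem_poss h).1 hH k

/-- The run of a position under a step function. -/
lemma exists_run (s : Pos → Edge × Bool) (p : Pos) :
    ∃ m : Run, pos m p.length = p ∧ ∀ n, p.length ≤ n → m n = s (pos m n) := by
  let nd : ℕ → Pos := fun k => Nat.rec p (fun _ q => q ++ [s q]) k
  have nd0 : nd 0 = p := rfl
  have nds : ∀ k, nd (k + 1) = nd k ++ [s (nd k)] := fun k => rfl
  have hlen : ∀ k, (nd k).length = p.length + k := by
    intro k; induction k with
    | zero => simp [nd0]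
    | succ k ih => rw [nds]; simp [ih]; omega
  let m : Run := fun n => if n < p.length then p.getD n (s p) else s (nd (n - p.length))
  have hx0 : pos m p.length = p := by
    apply List.ext_getElem
    · simp
    · intro i h1 h2
      simp [pos, m, h2]
  have hx : ∀ k, pos m (p.length + k) = nd k := by
    intro k; induction k with
    | zero => simpa [nd0] using hx0
    | succ k ih =>
      rw [← Nat.add_assoc, pos_succ, ih, nds]
      congr 2
      simp [m]
  refine ⟨m, hx0, fun n hn => ?_⟩
  obtain ⟨k, rfl⟩ := Nat.exists_eq_add_of_le hn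
  rw [hx k]
  simp [m]

end V11258.EQ
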