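import Pool.Agent.V11258.EQ.Seek

/-! Hider's plays against a strategy of Seeker. -/

open Set Function

namespace V11258.EQ

lemma N_nonbit {ψ : V ≃ ℕ} {c c1 : ℕ → Bool} {e : Edge} (he : ∀ g, e.1 ≠ bitS ψ g) :
    e.1 ∈ (N ψ c).edgeSet ↔ e.1 ∈ (N ψ c1).edgeSet := by
  obtain ⟨e, hd⟩ := e
  induction e using Sym2.ind with
  | _ x y =>
    simp only [SimpleGraph.mem_edgeSet, N_adj]
    obtain ⟨a, rfl⟩ := ψ.surjective x
    obtain ⟨b, rfl⟩ := ψ.surjective y
    simp only [Equiv.symm_apply_apply]
    rcases a with i | i | i <;> rcases b with j | j | j <;> simp only [adj]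
    by_cases hij : i ≠ j ∧ i / 2 = j / 2
    · exfalso
      have hij' : (i = 2 * (i / 2) ∧ j = 2 * (i / 2) + 1) ∨
          (j = 2 * (i / 2) ∧ i = 2 * (i / 2) + 1) := by omega
      rcases hij' with ⟨h1, h2⟩ | ⟨h1, h2⟩
      · apply he (i / 2)
        simp only [bitS]
        rw [← h2, ← h1]
      · apply he (i / 2)
        simp only [bitS]
        rw [← h2, ← h1, Sym2.eq_swap]
    · constructor
      · rintro ⟨h1, h2, -⟩; exact absurd ⟨h1, h2⟩ hij
      · rintro ⟨h1, h2, -⟩; exact absurd ⟨h1, h2⟩ hij

lemma N_inj {φ ψ : V ≃ ℕ} {c c' : ℕ → Bool} (h : N φ c = N ψ c') : c = c' := by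
  funext g
  by_contra hg
  have h1 : Agr (N φ c) (N ψ c') univ s(0, 0) := fun u _ w _ _ => by rw [h]
  have h2 := content_eq h1 hg
  exact (bitE φ g).2 (by change (bitS φ g).IsDiag; rw [h2]; simp)

/-- The contents with which Hider can answer `σ`. -/
def Aσ (σ : Pos → Edge) : Set (ℕ → Bool) :=
  {c | ∃ m : Run, (∀ n, (m n).1 = σ (pos m n)) ∧ OK c ∧ (∃ φ, N φ c ∈ Poss m) ∧
    ∃ H ∈ Poss m, ∀ B, H ∉ SS B}

instance : Countable V := by
  have : Injective (fun x : V => match x with
    | .b k => ((0, k.val) : ℕ × ℕ)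
    | .s j => (1, j)
    | .v j => (2, j)) := by
    intro x y h
    rcases x with i | i | i <;> rcases y with j | j | j <;> simp_all [Fin.ext_iff]
  exact this.countable

instance : Infinite V := Infinite.of_injective V.s (fun a b h => by simpa using h)

lemma exists_coord : Nonempty (V ≃ ℕ) := by
  obtain ⟨h⟩ := nonempty_denumerable V
  exact ⟨Denumerable.eqv V⟩

/-- Toggling one edge of a graph. -/
def toggle (G : SimpleGraph ℕ) (e : Sym2 ℕ) : SimpleGraph ℕ :=
  SimpleGraph.fromEdgeSet (symmDiff G.edgeSet {e})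

lemma mem_toggle {G : SimpleGraph ℕ} {e e' : Edge} :
    e'.1 ∈ (toggle G e.1).edgeSet ↔ (e'.1 ∈ G.edgeSet ↔ e' ≠ e) := by
  unfold toggle
  rw [SimpleGraph.edgeSet_fromEdgeSet]
  have h1 : e'.1 ∉ Sym2.diagSet := by
    rw [Sym2.mem_diagSet]; exact e'.2
  simp only [mem_sdiff, h1, not_false_eq_true, and_true, mem_symmDiff, mem_singleton_iff]
  by_cases h : e' = e
  · subst h; tauto
  · have h2 : e'.1 ≠ e.1 := fun h' => h (Subtype.ext h')
    simp [h, h2]

theorem hider_play {σ : Pos → Edge} (hσ : ∀ p, σ p ∉ asked p) (y : ℕ → Bool) :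
    (∃ m : Run, (∀ n, (m n).1 = σ (pos m n)) ∧ White m = ∅) ∨
      ∃ c ∈ Aσ σ, ∀ i, c (4 * i + 2) = y i := by
  classical
  obtain ⟨φ⟩ := exists_coord
  let cont : Pos → ℕ → Bool := fun p g =>
    if g % 4 = 0 then decide (bitE φ (g + 1) ∉ asked p)
    else if g % 4 = 1 then decide (bitE φ (g - 1) ∉ asked p)
    else if g % 4 = 2 then y (g / 4) else !y (g / 4)
  obtain ⟨m, -, hm⟩ := exists_run
    (fun q => (σ q, decide ((σ q).1 ∈ (N φ (cont q)).edgeSet))) []
  have hm1 : ∀ n, (m n).1 = σ (pos m n) := fun n => by rw [hm n (by simp)]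
  have hm2 : ∀ n, (m n).2 = decide ((m n).1.1 ∈ (N φ (cont (pos m n))).edgeSet) := fun n => by
    rw [hm1 n, hm n (by simp)]
  have hL : Legal m := fun n => by rw [hm1 n]; exact hσ _
  rcases (White m).eq_empty_or_nonempty with hW | ⟨e, he⟩
  · exact Or.inl ⟨m, hm1, hW⟩
  right
  let c : ℕ → Bool := fun g =>
    if g % 4 = 2 then y (g / 4) else if g % 4 = 3 then !y (g / 4)
    else decide (∃ n, m n = (bitE φ g, true))
  -- answers at bits
  have hbit : ∀ n g, (m n).1 = bitE φ g → (m n).2 = cont (pos m n) g := by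
    intro n g hg
    rw [hm2 n, hg]
    change decide (bitS φ g ∈ _) = _
    have := mem_bitS φ (cont (pos m n)) g
    cases h : cont (pos m n) g
    · rw [h] at this; exact decide_eq_false (by simpa using this)
    · rw [h] at this; exact decide_eq_true (by simpa using this)
  have hcbit : ∀ n g, (m n).1 = bitE φ g → (c g = true ↔ (m n).2 = true) := by
    intro n g hg
    by_cases h2 : g % 4 = 2
    · rw [hbit n g hg]
      simp [c, cont, h2]
    · by_cases h3 : g % 4 = 3
      · rw [hbit n g hg]
        simp [c, cont, h3]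
      · simp only [c, h2, h3, if_false, decide_eq_true_eq]
        constructor
        · rintro ⟨n', hn'⟩
          have h4 : (m n').1 = (m n).1 := by rw [hn', hg]
          have := legal_inj hL h4
          subst this
          rw [hn']
        · intro h4
          exact ⟨n, Prod.ext hg h4⟩
  -- a content which fits the answers gives a possible graph
  have hposs : ∀ c1 : ℕ → Bool, (∀ n g, (m n).1 = bitE φ g → (c1 g = true ↔ (m n).2 = true)) →
      N φ c1 ∈ Poss m := by
    intro c1 h1
    rw [mem_poss hL]
    intro n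
    by_cases hb : ∃ g, (m n).1 = bitE φ g
    · obtain ⟨g, hg⟩ := hb
      rw [← h1 n g hg, hg]
      exact mem_bitS φ c1 g
    · push Not at hb
      rw [hm2 n, decide_eq_true_iff]
      exact N_nonbit fun g h => hb g (Subtype.ext h)
  have hcP : N φ c ∈ Poss m := hposs c hcbit
  have hc2 : ∀ i, c (4 * i + 2) = y i := by
    intro i
    have h1 : (4 * i + 2) % 4 = 2 := by omega
    have h2 : (4 * i + 2) / 4 = i := by omega
    simp [c, h1, h2]
  have hc3 : ∀ i, c (4 * i + 3) = !y i := by
    intro i
    have h1 : (4 * i + 3) % 4 = 3 := by omega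
    have h2 : (4 * i + 3) / 4 = i := by omega
    simp [c, h1, h2]
  have hOK : OK c := by
    intro i
    refine ⟨?_, by rw [hc2, hc3]; simp⟩
    rintro ⟨h1, h2⟩
    have e1 : (4 * i) % 4 = 0 := by omega
    have e2 : (4 * i + 1) % 4 = 1 := by omega
    simp only [c, e1, e2] at h1 h2
    simp only [OfNat.zero_ne_ofNat, if_false, OfNat.one_ne_ofNat, decide_eq_true_eq] at h1 h2
    obtain ⟨n1, hn1⟩ := h1
    obtain ⟨n2, hn2⟩ := h2
    have b1 := hbit n1 (4 * i) (by rw [hn1])
    have b2 := hbit n2 (4 * i + 1) (by rw [hn2])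
    rw [hn1] at b1
    rw [hn2] at b2
    simp only [cont, e1, e2, if_true, one_ne_zero, if_false] at b1 b2
    have b1' := of_decide_eq_true b1.symm
    have b2' := of_decide_eq_true b2.symm
    have e3 : 4 * i + 1 - 1 = 4 * i := by omega
    rw [e3] at b2'
    rw [mem_asked_pos] at b1' b2'
    push Not at b1' b2'
    rcases lt_trichotomy n1 n2 with h | h | h
    · exact b2' n1 h (by rw [hn1])
    · subst h
      rw [hn1] at hn2
      have := bitE_inj φ (congrArg Prod.fst hn2)
      omega
    · exact b1' n2 h (by rw [hn2])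
  refine ⟨c, ⟨m, hm1, hOK, ⟨φ, hcP⟩, ?_⟩, hc2⟩
  -- a possible graph outside
  have hout : ∀ c1 : ℕ → Bool, (∀ n g, (m n).1 = bitE φ g → (c1 g = true ↔ (m n).2 = true)) →
      ¬ OK c1 → ∃ H ∈ Poss m, ∀ B, H ∉ SS B := by
    intro c1 h1 h2
    refine ⟨N φ c1, hposs c1 h1, fun B hB => ?_⟩
    obtain ⟨ψ, c', hc', -, heq⟩ := hB
    rw [N_inj heq] at h2
    exact h2 hc'
  by_cases hb : ∃ g, e = bitE φ g
  · obtain ⟨g, rfl⟩ := hb
    have h4 : g % 4 = 0 ∨ g % 4 = 1 ∨ g % 4 = 2 ∨ g % 4 = 3 := by omega
    rcases h4 with h4 | h4 | h4 | h4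
    · refine hout (update (update c g true) (g + 1) true) ?_ ?_
      · intro n g' hg'
        by_cases hg1 : g' = g + 1
        · subst hg1
          rw [update_self, hbit n _ hg']
          have e2 : (g + 1) % 4 = 1 := by omega
          have e3 : g + 1 - 1 = g := by omega
          simp only [cont, e2, e3, one_ne_zero, if_false, if_true, decide_eq_true_eq, true_iff]
          rw [mem_asked_pos]
          rintro ⟨k, -, hk⟩
          exact he k hk
        · rw [update_of_ne hg1]
          by_cases hg0 : g' = g
          · subst hg0; exact absurd hg' (he n)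
          · rw [update_of_ne hg0]; exact hcbit n g' hg'
      · intro hok
        have h5 := (hok (g / 4)).1
        have e1 : 4 * (g / 4) = g := by omega
        rw [e1] at h5
        apply h5
        rw [update_self, update_of_ne (by omega), update_self]
        exact ⟨rfl, rfl⟩
    · refine hout (update (update c g true) (g - 1) true) ?_ ?_
      · intro n g' hg'
        by_cases hg1 : g' = g - 1
        · subst hg1
          rw [update_self, hbit n _ hg']
          have e2 : (g - 1) % 4 = 0 := by omega
          have e3 : g - 1 + 1 = g := by omega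
          simp only [cont, e2, e3, if_true, decide_eq_true_eq, true_iff]
          rw [mem_asked_pos]
          rintro ⟨k, -, hk⟩
          exact he k hk
        · rw [update_of_ne hg1]
          by_cases hg0 : g' = g
          · subst hg0; exact absurd hg' (he n)
          · rw [update_of_ne hg0]; exact hcbit n g' hg'
      · intro hok
        have h5 := (hok (g / 4)).1
        have e1 : 4 * (g / 4) = g - 1 := by omega
        have e2 : g - 1 + 1 = g := by omega
        rw [e1, e2] at h5
        apply h5
        rw [update_self, update_of_ne (by omega), update_self]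
        exact ⟨rfl, rfl⟩
    · refine hout (update c g (!c g)) ?_ ?_
      · intro n g' hg'
        by_cases hg0 : g' = g
        · subst hg0; exact absurd hg' (he n)
        · rw [update_of_ne hg0]; exact hcbit n g' hg'
      · intro hok
        have h5 := (hok (g / 4)).2
        have h6 := (hOK (g / 4)).2
        have e1 : 4 * (g / 4) + 2 = g := by omega
        have e2 : 4 * (g / 4) + 3 = g + 1 := by omega
        rw [e1, e2] at h5 h6
        rw [update_self, update_of_ne (by omega), h6] at h5
        simp at h5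
    · refine hout (update c g (!c g)) ?_ ?_
      · intro n g' hg'
        by_cases hg0 : g' = g
        · subst hg0; exact absurd hg' (he n)
        · rw [update_of_ne hg0]; exact hcbit n g' hg'
      · intro hok
        have h5 := (hok (g / 4)).2
        have h6 := (hOK (g / 4)).2
        have e1 : 4 * (g / 4) + 2 = g - 1 := by omega
        have e2 : 4 * (g / 4) + 3 = g := by omega
        rw [e1, e2] at h5 h6
        rw [update_self, update_of_ne (by omega), h6] at h5
        simp at h5
  · push Not at hb
    refine ⟨toggle (N φ c) e.1, ?_, ?_⟩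
    · rw [mem_poss hL]
      intro n
      rw [mem_toggle, ← (mem_poss hL).1 hcP n]
      have := he n
      tauto
    · rintro B ⟨ψ, c', hc', -, heq⟩
      obtain ⟨e, hd⟩ := e
      induction e using Sym2.ind with
      | _ x z =>
        have hxz : x ≠ z := by simpa using hd
        have hagr : Agr (N φ c) (N ψ c') univ s(x, z) := by
          intro u _ w _ huw
          rw [← heq]
          by_cases huw' : u = w
          · subst huw'; simp
          · have hnd : ¬ (s(u, w) : Sym2 ℕ).IsDiag := by simpa using huw'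
            have h1 := mem_toggle (G := N φ c) (e := ⟨s(x, z), hd⟩) (e' := ⟨s(u, w), hnd⟩)
            have h2 : (⟨s(u, w), hnd⟩ : Edge) ≠ ⟨s(x, z), hd⟩ :=
              fun h => huw (congrArg Subtype.val h)
            simp only [SimpleGraph.mem_edgeSet] at h1
            tauto
        have hdiff : ¬ ((N φ c).Adj x z ↔ (N ψ c').Adj x z) := by
          rw [← heq]
          have h1 := mem_toggle (G := N φ c) (e := ⟨s(x, z), hd⟩) (e' := ⟨s(x, z), hd⟩)
          simp only [SimpleGraph.mem_edgeSet, ne_eq, not_true_eq_false] at h1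
          tauto
        obtain ⟨g, hg⟩ := flip_bit hxz hagr hdiff
        exact hb g (Subtype.ext hg.symm)

end V11258.EQ
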