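import Pool.Agent.V11258.EQ.Tree
import Pool.Agent.V11258.EQ.Hide

/-! A non-determined graph property. -/

open Set Function Cardinal

namespace V11258.EQ

lemma countable_class (c : ℕ → Bool) : {x | E0 c x}.Countable := by
  classical
  have : {x | E0 c x} ⊆ range (fun F : Finset ℕ => fun g => if g ∈ F then !c g else c g) := by
    intro x hx
    have hx' : {g | c g ≠ x g}.Finite := hx
    refine ⟨hx'.toFinset, ?_⟩
    funext g
    by_cases h : c g = x g
    · have h1 : g ∉ hx'.toFinset := by simpa using h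
      simp only [h1, if_false]
      exact h
    · have h1 : g ∈ hx'.toFinset := by simpa using h
      simp only [h1, if_true]
      cases h2 : c g <;> cases h3 : x g <;> simp_all
  exact (countable_range _).mono this

lemma exists_choice {J : Type} (hJ : #J ≤ 𝔠) (A : J → Set (ℕ → Bool)) (h : ∀ j, 𝔠 ≤ #(A j)) :
    ∃ g : J → (ℕ → Bool), (∀ j, g j ∈ A j) ∧ ∀ i j, E0 (g i) (g j) → i = j := by
  classical
  obtain ⟨r, hwo, hr⟩ := Cardinal.exists_ord_eq J
  have key : ∀ j (f : ∀ i, r i j → (ℕ → Bool)),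
      ∃ x, x ∈ A j ∧ ∀ i (hi : r i j), ¬ E0 (f i hi) x := by
    intro j f
    by_contra hcon
    push Not at hcon
    have h1 : A j ⊆ ⋃ i : {i // r i j}, {x | E0 (f i.1 i.2) x} := by
      intro x hx
      obtain ⟨i, hi, hE⟩ := hcon x hx
      exact mem_iUnion.2 ⟨⟨i, hi⟩, hE⟩
    have h2 : #(A j) ≤ #{i // r i j} * ℵ₀ := by
      refine (Cardinal.mk_le_mk_of_subset h1).trans ?_
      refine (Cardinal.mk_iUnion_le _).trans ?_
      gcongr
      exact ciSup_le' fun i => (countable_class _).le_aleph0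
    have h3 : #{i // r i j} < 𝔠 := (Cardinal.card_typein_lt j hr).trans_le hJ
    have h4 : #{i // r i j} * ℵ₀ < 𝔠 :=
      Cardinal.mul_lt_of_lt Cardinal.aleph0_le_continuum h3 Cardinal.aleph0_lt_continuum
    exact absurd (h j) (not_le.2 (h2.trans_lt h4))
  let g : J → (ℕ → Bool) := hwo.wf.fix fun j f => Classical.choose (key j f)
  have hg : ∀ j, g j = Classical.choose (key j fun i _ => g i) := fun j => hwo.wf.fix_eq _ j
  have hgs : ∀ j, g j ∈ A j ∧ ∀ i, r i j → ¬ E0 (g i) (g j) := by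
    intro j
    have := Classical.choose_spec (key j fun i _ => g i)
    rw [← hg j] at this
    exact this
  refine ⟨g, fun j => (hgs j).1, fun i j hij => ?_⟩
  exact hwo.trichotomous i j (fun h => (hgs j).2 i h hij) (fun h => (hgs i).2 j h hij.symm)

lemma mk_seeker : #(Pos → Edge) ≤ 𝔠 := by
  rw [← Cardinal.power_def]
  calc #Edge ^ #Pos ≤ ℵ₀ ^ #Pos := Cardinal.power_le_power_right Cardinal.mk_le_aleph0
    _ ≤ ℵ₀ ^ ℵ₀ := Cardinal.power_le_power_left Cardinal.aleph0_ne_zero Cardinal.mk_le_aleph0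
    _ = 𝔠 := Cardinal.aleph0_power_aleph0

lemma mk_hider : #(Pos → Edge → Bool) ≤ 𝔠 := by
  have h1 : #(Edge → Bool) ≤ 𝔠 := by
    rw [← Cardinal.power_def]
    calc #Bool ^ #Edge ≤ #Bool ^ ℵ₀ :=
          Cardinal.power_le_power_left (by simp) Cardinal.mk_le_aleph0
      _ = 𝔠 := by simp
  rw [← Cardinal.power_def]
  calc #(Edge → Bool) ^ #Pos ≤ 𝔠 ^ #Pos := Cardinal.power_le_power_right h1
    _ ≤ 𝔠 ^ ℵ₀ := Cardinal.power_le_power_left Cardinal.continuum_ne_zero Cardinal.mk_le_aleph0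
    _ = 𝔠 := Cardinal.continuum_power_aleph0

theorem main : ∃ S : Set (SimpleGraph ℕ), IsProperty S ∧ ¬ SeekerWins S ∧ ¬ HiderWins S := by
  classical
  let J1 := {σ : Pos → Edge // 𝔠 ≤ #(Aσ σ)}
  let J2 := {τ : Pos → Edge → Bool // 𝔠 ≤ #(Aτ τ)}
  have hJ : #(J1 ⊕ J2) ≤ 𝔠 := by
    rw [Cardinal.mk_sum]
    simp only [Cardinal.lift_id]
    calc #J1 + #J2 ≤ 𝔠 + 𝔠 := add_le_add ((Cardinal.mk_subtype_le _).trans mk_seeker)
          ((Cardinal.mk_subtype_le _).trans mk_hider)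
      _ = 𝔠 := Cardinal.continuum_add_self
  obtain ⟨g, hg1, hg2⟩ := exists_choice hJ
    (fun j => match j with
      | .inl σ => Aσ σ.1
      | .inr τ => Aτ τ.1) (by
    rintro (σ | τ)
    · exact σ.2
    · exact τ.2)
  let B : Set (ℕ → Bool) := {c | ∃ σ : J1, E0 (g (.inl σ)) c}
  have hB : ∀ c ∈ B, ∀ c', E0 c c' → c' ∈ B := by
    rintro c ⟨σ, hσ⟩ c' hc'
    exact ⟨σ, hσ.trans hc'⟩
  have hcard : #(ℕ → Bool) = 𝔠 := by simp
  refine ⟨SS B, isProperty_SS B, ?_, ?_⟩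
  · rintro ⟨σ, hσ, hwin⟩
    by_cases hW : ∃ m : Run, (∀ n, (m n).1 = σ (pos m n)) ∧ White m = ∅
    · obtain ⟨m, hm, hW⟩ := hW
      have := (hwin m hm).1
      rw [hW] at this
      exact not_nonempty_empty this
    · have hy : ∀ y : ℕ → Bool, ∃ c ∈ Aσ σ, ∀ i, c (4 * i + 2) = y i := fun y =>
        (hider_play hσ y).resolve_left hW
      choose f hf1 hf2 using hy
      have hcσ : 𝔠 ≤ #(Aσ σ) := by
        rw [← hcard]
        refine Cardinal.mk_le_of_injective (f := fun y => (⟨f y, hf1 y⟩ : Aσ σ)) ?_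
        intro y y' h
        have h1 : f y = f y' := congrArg Subtype.val h
        funext i
        rw [← hf2 y i, ← hf2 y' i, h1]
      obtain ⟨m, hm, hOK, ⟨φ, hφ⟩, H, hH, hHB⟩ := hg1 (.inl ⟨σ, hcσ⟩)
      rcases (hwin m hm).2 with h | h
      · exact hHB B (h hH)
      · have : N φ (g (.inl ⟨σ, hcσ⟩)) ∈ Poss m ∩ SS B :=
          ⟨hφ, φ, _, hOK, ⟨⟨σ, hcσ⟩, E0.refl _⟩, rfl⟩
        rw [h] at this
        exact this
  · rintro ⟨τ, hwin⟩
    obtain ⟨f, hfi, hf⟩ := exists_inj_Aτ (τ := τ) (B := B) hwin hB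
    have hcτ : 𝔠 ≤ #(Aτ τ) := by
      rw [← hcard]
      refine Cardinal.mk_le_of_injective (f := fun y => (⟨f y, hf y⟩ : Aτ τ)) ?_
      intro y y' h
      exact hfi (congrArg Subtype.val h)
    obtain ⟨m, hL, hτ, hW, hall⟩ := hg1 (.inr ⟨τ, hcτ⟩)
    apply hwin m hL hτ
    refine ⟨hW, Or.inr ?_⟩
    rw [eq_empty_iff_forall_notMem]
    rintro G ⟨hG, φ, c, hc, ⟨σ, hσ⟩, rfl⟩
    have h1 := hall φ c hc hG
    have h2 := hg2 _ _ (hσ.trans h1)
    simp at h2

end V11258.EQ
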