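import Pool.Agent.V11258.EQ.Defs

/-! The rigid skeleton: a clique, a comb, and a matching which carries the content. -/

open Set

namespace V11258.EQ

/-- Vertices of the skeleton: base vertices, hubs, leaves. -/
inductive V
  | b (k : Fin 5)
  | s (j : ℕ)
  | v (j : ℕ)
deriving DecidableEq

/-- Adjacency. The leaf pairs `{v (2g), v (2g+1)}` carry the content `c g`. -/
def adj (c : ℕ → Bool) : V → V → Prop
  | .b i, .b k => i ≠ k
  | .b i, .s j => i = 0 ∨ j = 0
  | .s j, .b i => i = 0 ∨ j = 0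
  | .b _, .v _ => False
  | .v _, .b _ => False
  | .s j, .s k => j = k + 1 ∨ k = j + 1
  | .s j, .v k => j = k
  | .v k, .s j => j = k
  | .v j, .v k => j ≠ k ∧ j / 2 = k / 2 ∧ c (j / 2) = true

lemma adj_symm (c : ℕ → Bool) : ∀ x y, adj c x y → adj c y x
  | .b i, .b k, h => Ne.symm h
  | .b i, .s j, h => h
  | .s j, .b i, h => h
  | .b _, .v _, h => h
  | .v _, .b _, h => h
  | .s j, .s k, h => Or.symm h
  | .s j, .v k, h => h
  | .v k, .s j, h => h
  | .v j, .v k, h => by
      obtain ⟨h1, h2, h3⟩ := h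
      exact ⟨h1.symm, h2.symm, by rw [← h2]; exact h3⟩

lemma adj_irrefl (c : ℕ → Bool) : ∀ x, ¬ adj c x x
  | .b i => by simp [adj]
  | .s j => by simp [adj]
  | .v j => by simp [adj]

/-- The graph on `ℕ` with the coordinates `φ` and the content `c`. -/
def N (φ : V ≃ ℕ) (c : ℕ → Bool) : SimpleGraph ℕ where
  Adj u w := adj c (φ.symm u) (φ.symm w)
  symm := ⟨fun _ _ h => adj_symm c _ _ h⟩
  loopless := ⟨fun _ h => adj_irrefl c _ h⟩

lemma N_adj {φ : V ≃ ℕ} {c : ℕ → Bool} {u w : ℕ} :
    (N φ c).Adj u w ↔ adj c (φ.symm u) (φ.symm w) := Iff.rfl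

/-- The base: the vertices of the 6-clique. -/
def inB : V → Prop
  | .b _ => True
  | .s j => j = 0
  | .v _ => False

lemma inB_adj (c : ℕ → Bool) {x y : V} (hx : inB x) (hy : inB y) (h : x ≠ y) : adj c x y := by
  rcases x with i | i | i <;> rcases y with j | j | j <;> simp_all [inB, adj]

lemma K4 (c : ℕ → Bool) {x y z w : V} (h1 : adj c x y) (h2 : adj c x z) (h3 : adj c x w)
    (h4 : adj c y z) (h5 : adj c y w) (h6 : adj c z w) : inB x := by
  rcases x with i | i | i
  · trivial
  · by_contra hne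
    simp only [inB] at hne
    rcases y with j | j | j <;> rcases z with k | k | k <;> rcases w with l | l | l <;>
      simp only [adj] at * <;> omega
  · exfalso
    rcases y with j | j | j <;> rcases z with k | k | k <;> rcases w with l | l | l <;>
      simp only [adj] at * <;> omega

lemma out3 (c : ℕ → Bool) {z x y w : V} (hz : inB z) (hx : ¬ inB x) (hy : ¬ inB y)
    (hw : ¬ inB w) (h1 : adj c z x) (h2 : adj c z y) (h3 : adj c z w) (hxy : x ≠ y)
    (hxw : x ≠ w) (hyw : y ≠ w) : z = .b 0 := by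
  rcases z with i | i | i
  · rcases x with j | j | j
    · exact absurd trivial hx
    · simp only [adj, inB] at *
      rcases h1 with h | h
      · rw [h]
      · exact absurd h hx
    · simp only [adj] at h1
  · exfalso
    simp only [inB] at hz
    subst hz
    rcases x with j | j | j <;> rcases y with k | k | k <;> rcases w with l | l | l <;>
      simp only [adj, inB, ne_eq, V.s.injEq, V.v.injEq, not_true_eq_false, reduceCtorEq,
        not_false_eq_true, false_or] at * <;> omega
  · exact absurd hz (by simp [inB])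

lemma out1 (c : ℕ → Bool) {z x : V} (hz : inB z) (hx : ¬ inB x) (h1 : adj c z x)
    (hne : z ≠ .b 0) : z = .s 0 := by
  rcases z with i | i | i
  · exfalso
    rcases x with j | j | j
    · exact hx trivial
    · simp only [adj, inB] at *
      rcases h1 with h | h
      · exact hne (by rw [h])
      · exact hx h
    · simp only [adj] at h1
  · simp only [inB] at hz; rw [hz]
  · exact absurd hz (by simp [inB])

/-- Enumeration of the base. -/
def β (k : Fin 6) : V := if h : k.val < 5 then .b ⟨k.val, h⟩ else .s 0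

lemma inB_β (k : Fin 6) : inB (β k) := by
  unfold β; split_ifs <;> simp [inB]

lemma β_inj : Function.Injective β := by
  intro a b h
  unfold β at h
  split_ifs at h with h1 h2 h2
  · simp only [V.b.injEq, Fin.mk.injEq] at h; exact Fin.ext h
  · exact Fin.ext (by omega)

lemma exists_β {x : V} (h : inB x) : ∃ k, β k = x := by
  rcases x with i | i | i
  · exact ⟨⟨i.val, by omega⟩, by unfold β; simp⟩
  · simp only [inB] at h; subst h; exact ⟨5, by unfold β; simp⟩
  · exact absurd h (by simp [inB])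

/-- Agreement of two graphs on the pairs from `D`, except possibly at `e`. -/
def Agr (G H : SimpleGraph ℕ) (D : Set ℕ) (e : Sym2 ℕ) : Prop :=
  ∀ u ∈ D, ∀ w ∈ D, s(u, w) ≠ e → (G.Adj u w ↔ H.Adj u w)

lemma Agr.symm {G H : SimpleGraph ℕ} {D : Set ℕ} {e : Sym2 ℕ} (h : Agr G H D e) : Agr H G D e :=
  fun u hu w hw hne => (h u hu w hw hne).symm

lemma Agr.mono {G H : SimpleGraph ℕ} {D D' : Set ℕ} {e : Sym2 ℕ} (h : Agr G H D e)
    (hD : D' ⊆ D) : Agr G H D' e :=
  fun u hu w hw hne => h u (hD hu) w (hD hw) hne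

/-- The finite set of vertices used to identify the base. -/
def F0 : Set V := {x | inB x ∨ x = .s 1 ∨ x = .s 2 ∨ x = .s 3 ∨ x = .s 4 ∨ x = .v 0}

lemma fin6_choice : ∀ k k0 : Fin 6, ∃ a b c : Fin 6, a ≠ k ∧ b ≠ k ∧ c ≠ k ∧ a ≠ k0 ∧ b ≠ k0 ∧
    c ≠ k0 ∧ a ≠ b ∧ a ≠ c ∧ b ≠ c := by decide

section

variable {φ ψ : V ≃ ℕ} {c c' : ℕ → Bool} {e : Sym2 ℕ}

lemma base_sub (h : Agr (N φ c) (N ψ c') (φ '' F0) e) {x : V} (hx : inB x) :
    inB (ψ.symm (φ x)) := by
  obtain ⟨k, rfl⟩ := exists_β hx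
  have hD : ∀ i, φ (β i) ∈ φ '' F0 := fun i => ⟨_, Or.inl (inB_β i), rfl⟩
  -- the index to be avoided
  obtain ⟨k0, hk0, hav⟩ : ∃ k0 : Fin 6, k0 ≠ k ∧ ∀ i j : Fin 6, i ≠ k0 → j ≠ k0 → i ≠ j →
      s(φ (β i), φ (β j)) ≠ e := by
    by_cases hex : ∃ p q : Fin 6, p ≠ q ∧ s(φ (β p), φ (β q)) = e
    · obtain ⟨p, q, hpq, rfl⟩ := hex
      have key : ∀ i j : Fin 6, s(φ (β i), φ (β j)) = s(φ (β p), φ (β q)) →
          (i = p ∧ j = q) ∨ (i = q ∧ j = p) := by
        intro i j hij
        rw [Sym2.eq_iff] at hij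
        rcases hij with ⟨h1, h2⟩ | ⟨h1, h2⟩
        · exact Or.inl ⟨β_inj (φ.injective h1), β_inj (φ.injective h2)⟩
        · exact Or.inr ⟨β_inj (φ.injective h1), β_inj (φ.injective h2)⟩
      by_cases hp : p = k
      · refine ⟨q, fun hq => hpq (hp.trans hq.symm), fun i j hi hj _ hij => ?_⟩
        rcases key i j hij with ⟨-, h2⟩ | ⟨h1, -⟩
        · exact hj h2
        · exact hi h1
      · refine ⟨p, hp, fun i j hi hj _ hij => ?_⟩
        rcases key i j hij with ⟨h1, -⟩ | ⟨-, h2⟩
        · exact hi h1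
        · exact hj h2
    · push Not at hex
      obtain ⟨a, -, -, ha, -⟩ := fin6_choice k k
      exact ⟨a, ha, fun i j _ _ hij => hex i j hij⟩
  obtain ⟨a, b, d, ha, hb, hd, ha0, hb0, hd0, hab, had, hbd⟩ := fin6_choice k k0
  have key : ∀ i j : Fin 6, i ≠ k0 → j ≠ k0 → i ≠ j →
      adj c' (ψ.symm (φ (β i))) (ψ.symm (φ (β j))) := by
    intro i j hi hj hij
    have h1 := (h _ (hD i) _ (hD j) (hav i j hi hj hij)).1
    apply h1
    rw [N_adj]
    simp only [Equiv.symm_apply_apply]
    exact inB_adj c (inB_β i) (inB_β j) (fun h => hij (β_inj h))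
  exact K4 c' (key k a hk0.symm ha0 ha.symm) (key k b hk0.symm hb0 hb.symm)
    (key k d hk0.symm hd0 hd.symm) (key a b ha0 hb0 hab) (key a d ha0 hd0 had)
    (key b d hb0 hd0 hbd)

lemma base_eq (h : Agr (N φ c) (N ψ c') (φ '' F0) e) (u : ℕ) :
    inB (φ.symm u) ↔ inB (ψ.symm u) := by
  constructor
  · intro hu
    have := base_sub h hu
    simpa using this
  · intro hu
    have hf : ∀ k : Fin 6, ∃ l : Fin 6, β l = ψ.symm (φ (β k)) :=
      fun k => exists_β (base_sub h (inB_β k))
    choose f hf using hf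
    have hfi : Function.Injective f := by
      intro a b hab
      have h1 : ψ.symm (φ (β a)) = ψ.symm (φ (β b)) := by rw [← hf, ← hf, hab]
      exact β_inj (φ.injective (ψ.symm.injective h1))
    have hfs : Function.Surjective f := Finite.surjective_of_injective hfi
    obtain ⟨l, hl⟩ := exists_β hu
    obtain ⟨k, hk⟩ := hfs l
    have h1 := hf k
    rw [hk, hl] at h1
    have h2 : u = φ (β k) := ψ.symm.injective h1
    rw [h2]
    simpa using inB_β k

lemma base_b0 (h : Agr (N φ c) (N ψ c') (φ '' F0) e) : φ (.b 0) = ψ (.b 0) := by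
  have hne : ∀ i j : ℕ, i ≠ j → s(φ (.b 0), φ (.s i)) = e → s(φ (.b 0), φ (.s j)) ≠ e := by
    intro i j hij h1 h2
    rw [← h1, Sym2.eq_iff] at h2
    rcases h2 with ⟨-, h2⟩ | ⟨h2, -⟩
    · have := φ.injective h2
      simp only [V.s.injEq] at this
      exact hij this.symm
    · have := φ.injective h2
      simp at this
  have hs : ∀ j, φ (.s j) ∈ φ '' F0 ∨ 4 < j := by
    intro j
    by_cases hj : 4 < j
    · exact Or.inr hj
    · left
      refine ⟨_, ?_, rfl⟩
      unfold F0
      have : j = 0 ∨ j = 1 ∨ j = 2 ∨ j = 3 ∨ j = 4 := by omega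
      rcases this with rfl | rfl | rfl | rfl | rfl <;> simp [inB]
  have key : ∀ j, 0 < j → j ≤ 4 → s(φ (.b 0), φ (.s j)) ≠ e →
      adj c' (ψ.symm (φ (.b 0))) (ψ.symm (φ (.s j))) ∧ ¬ inB (ψ.symm (φ (.s j))) := by
    intro j hj0 hj hje
    refine ⟨?_, ?_⟩
    · apply (h _ ⟨.b 0, by simp [F0, inB], rfl⟩ _ ((hs j).resolve_right (by omega)) hje).1
      rw [N_adj]
      simp [adj]
    · rw [← base_eq h]
      simp [inB]; omega
  have hin : inB (ψ.symm (φ (.b 0))) := base_sub h trivial
  have fin : ∀ i j k : ℕ, 0 < i → i ≤ 4 → 0 < j → j ≤ 4 → 0 < k → k ≤ 4 → i ≠ j → i ≠ k →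
      j ≠ k → s(φ (.b 0), φ (.s i)) ≠ e → s(φ (.b 0), φ (.s j)) ≠ e →
      s(φ (.b 0), φ (.s k)) ≠ e → ψ.symm (φ (.b 0)) = .b 0 := by
    intro i j k hi hi' hj hj' hk hk' hij hik hjk h1 h2 h3
    obtain ⟨a1, b1⟩ := key i hi hi' h1
    obtain ⟨a2, b2⟩ := key j hj hj' h2
    obtain ⟨a3, b3⟩ := key k hk hk' h3
    refine out3 c' hin b1 b2 b3 a1 a2 a3 ?_ ?_ ?_
    · intro h; exact hij (by simpa using h)
    · intro h; exact hik (by simpa using h)
    · intro h; exact hjk (by simpa using h)
  have : ψ.symm (φ (.b 0)) = .b 0 := by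
    by_cases h1 : s(φ (.b 0), φ (.s 1)) = e
    · exact fin 2 3 4 (by norm_num) (by norm_num) (by norm_num) (by norm_num) (by norm_num)
        (by norm_num) (by norm_num) (by norm_num) (by norm_num) (hne 1 2 (by norm_num) h1)
        (hne 1 3 (by norm_num) h1) (hne 1 4 (by norm_num) h1)
    by_cases h2 : s(φ (.b 0), φ (.s 2)) = e
    · exact fin 1 3 4 (by norm_num) (by norm_num) (by norm_num) (by norm_num) (by norm_num)
        (by norm_num) (by norm_num) (by norm_num) (by norm_num) h1
        (hne 2 3 (by norm_num) h2) (hne 2 4 (by norm_num) h2)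
    by_cases h3 : s(φ (.b 0), φ (.s 3)) = e
    · exact fin 1 2 4 (by norm_num) (by norm_num) (by norm_num) (by norm_num) (by norm_num)
        (by norm_num) (by norm_num) (by norm_num) (by norm_num) h1 h2
        (hne 3 4 (by norm_num) h3)
    · exact fin 1 2 3 (by norm_num) (by norm_num) (by norm_num) (by norm_num) (by norm_num)
        (by norm_num) (by norm_num) (by norm_num) (by norm_num) h1 h2 h3
  conv_rhs => rw [← this]
  simp

lemma base_s0 (h : Agr (N φ c) (N ψ c') (φ '' F0) e) : φ (.s 0) = ψ (.s 0) := by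
  have hin : inB (ψ.symm (φ (.s 0))) := base_sub h (by simp [inB])
  have hne0 : ψ.symm (φ (.s 0)) ≠ .b 0 := by
    intro h1
    have h2 : φ (.s 0) = ψ (.b 0) := by rw [← h1]; simp
    rw [← base_b0 h] at h2
    have := φ.injective h2
    simp at this
  have hS0 : φ (.s 0) ∈ φ '' F0 := ⟨_, Or.inl (by simp [inB]), rfl⟩
  have : ψ.symm (φ (.s 0)) = .s 0 := by
    by_cases h1 : s(φ (.s 0), φ (.s 1)) = e
    · have h2 : s(φ (.s 0), φ (.v 0)) ≠ e := by
        intro h2
        rw [← h1, Sym2.eq_iff] at h2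
        rcases h2 with ⟨-, h2⟩ | ⟨h2, -⟩
        · have := φ.injective h2; simp at this
        · have := φ.injective h2; simp at this
      refine out1 c' hin (x := ψ.symm (φ (.v 0))) ?_ ?_ hne0
      · rw [← base_eq h]; simp [inB]
      · apply (h _ hS0 _ ⟨_, by simp [F0], rfl⟩ h2).1
        rw [N_adj]; simp [adj]
    · refine out1 c' hin (x := ψ.symm (φ (.s 1))) ?_ ?_ hne0
      · rw [← base_eq h]; simp [inB]
      · apply (h _ hS0 _ ⟨_, by simp [F0], rfl⟩ h1).1
        rw [N_adj]; simp [adj]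
  conv_rhs => rw [← this]
  simp

/-- Recognizing the next hub. -/
lemma next_hub {c : ℕ → Bool} {z : V} {j : ℕ} (h1 : adj c z (.b 0)) (h2 : adj c z (.s j))
    (h3 : ¬ inB z) (h4 : ∀ i, i < j → z ≠ .s i) : z = .s (j + 1) := by
  rcases z with i | i | i
  · exact absurd trivial h3
  · simp only [adj] at h2
    rcases h2 with h | h
    · rw [h]
    · exact absurd rfl (h4 i (by omega))
  · simp [adj] at h1

/-- Recognizing a leaf. -/
lemma next_leaf {c : ℕ → Bool} {z : V} {j : ℕ} (h1 : ¬ adj c z (.b 0)) (h2 : adj c z (.s j))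
    (h3 : z ≠ .b 0) : z = .v j := by
  rcases z with i | i | i
  · exfalso
    apply h1
    simp only [adj, ne_eq]
    intro h; exact h3 (by rw [h])
  · exfalso; apply h1; simp [adj]
  · simp only [adj] at h2; rw [h2]

lemma rig_step_s (h : Agr (N φ c) (N ψ c') univ e) (hb0 : φ (.b 0) = ψ (.b 0))
    (hB : ∀ u, inB (φ.symm u) ↔ inB (ψ.symm u)) {j : ℕ} (hs : ∀ i ≤ j, φ (.s i) = ψ (.s i))
    (h1 : s(φ (.s (j + 1)), φ (.b 0)) ≠ e) (h2 : s(φ (.s (j + 1)), φ (.s j)) ≠ e) :
    φ (.s (j + 1)) = ψ (.s (j + 1)) := by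
  have a1 := (h _ (mem_univ _) _ (mem_univ _) h1).1 (by rw [N_adj]; simp [adj])
  have a2 := (h _ (mem_univ _) _ (mem_univ _) h2).1 (by rw [N_adj]; simp [adj])
  rw [N_adj, hb0] at a1
  rw [N_adj, hs j le_rfl] at a2
  simp only [Equiv.symm_apply_apply] at a1 a2
  have : ψ.symm (φ (.s (j + 1))) = .s (j + 1) := by
    refine next_hub a1 a2 ?_ ?_
    · rw [← hB]; simp [inB]
    · intro i hi heq
      have h3 : φ (.s (j + 1)) = ψ (.s i) := by rw [← heq]; simp
      rw [← hs i hi.le] at h3
      have := φ.injective h3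
      simp only [V.s.injEq] at this
      omega
  conv_rhs => rw [← this]
  simp

lemma rig_step_v (h : Agr (N φ c) (N ψ c') univ e) (hb0 : φ (.b 0) = ψ (.b 0))
    {j : ℕ} (hs : φ (.s j) = ψ (.s j))
    (h1 : s(φ (.v j), φ (.b 0)) ≠ e) (h2 : s(φ (.v j), φ (.s j)) ≠ e) :
    φ (.v j) = ψ (.v j) := by
  have a1 := (h _ (mem_univ _) _ (mem_univ _) h1).not.1 (by rw [N_adj]; simp [adj])
  have a2 := (h _ (mem_univ _) _ (mem_univ _) h2).1 (by rw [N_adj]; simp [adj])
  rw [N_adj, hb0] at a1
  rw [N_adj, hs] at a2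
  simp only [Equiv.symm_apply_apply] at a1 a2
  have : ψ.symm (φ (.v j)) = .v j := by
    refine next_leaf a1 a2 ?_
    intro heq
    have h3 : φ (.v j) = ψ (.b 0) := by rw [← heq]; simp
    rw [← hb0] at h3
    have := φ.injective h3
    simp at this
  conv_rhs => rw [← this]
  simp

lemma pair_avoid {w w' a a' : ℕ} (hw : w ≠ w') (h1 : w' ≠ a) (h2 : w' ≠ a')
    (h : ¬ (s(w, a) ≠ e ∧ s(w, a') ≠ e)) : s(w', a) ≠ e ∧ s(w', a') ≠ e := by
  have key : ∀ b, b = a ∨ b = a' → s(w, b) = e → s(w', a) ≠ e ∧ s(w', a') ≠ e := by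
    rintro b hb rfl
    have hwb : w' ≠ b := by rcases hb with rfl | rfl <;> assumption
    constructor
    · intro h3
      rw [Sym2.eq_iff] at h3
      rcases h3 with ⟨h3, -⟩ | ⟨h3, -⟩
      · exact hw h3.symm
      · exact hwb h3
    · intro h3
      rw [Sym2.eq_iff] at h3
      rcases h3 with ⟨h3, -⟩ | ⟨h3, -⟩
      · exact hw h3.symm
      · exact hwb h3
  by_cases hc : s(w, a) = e
  · exact key a (Or.inl rfl) hc
  · by_cases hc' : s(w, a') = e
    · exact key a' (Or.inr rfl) hc'
    · exact absurd ⟨hc, hc'⟩ h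

/-- **Rigidity**: agreement up to one pair determines the coordinates. -/
theorem rig (h : Agr (N φ c) (N ψ c') univ e) :
    φ (.b 0) = ψ (.b 0) ∧ (∀ j, φ (.s j) = ψ (.s j)) ∧ (∀ j, φ (.v j) = ψ (.v j)) ∧
      ∀ u, inB (φ.symm u) ↔ inB (ψ.symm u) := by
  have h0 : Agr (N φ c) (N ψ c') (φ '' F0) e := h.mono (subset_univ _)
  have hb0 := base_b0 h0
  have hB := base_eq h0
  have hs : ∀ j, φ (.s j) = ψ (.s j) := by
    intro j
    induction j using Nat.strong_induction_on with
    | _ j ih =>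
      cases j with
      | zero => exact base_s0 h0
      | succ j =>
        have hle : ∀ i ≤ j, φ (.s i) = ψ (.s i) := fun i hi => ih i (by omega)
        by_contra hne
        by_cases hc : s(φ (.s (j + 1)), φ (.b 0)) ≠ e ∧ s(φ (.s (j + 1)), φ (.s j)) ≠ e
        · exact hne (rig_step_s h hb0 hB hle hc.1 hc.2)
        · have h1 : ψ (.s (j + 1)) ≠ φ (.b 0) := by
            rw [hb0]; intro h2; have := ψ.injective h2; simp at this
          have h2 : ψ (.s (j + 1)) ≠ φ (.s j) := by
            rw [hle j le_rfl]; intro h2; have := ψ.injective h2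
            simp only [V.s.injEq] at this; omega
          obtain ⟨h3, h4⟩ := pair_avoid hne h1 h2 hc
          rw [hb0] at h3
          rw [hle j le_rfl] at h4
          exact hne (rig_step_s h.symm hb0.symm (fun u => (hB u).symm)
            (fun i hi => (hle i hi).symm) h3 h4).symm
  refine ⟨hb0, hs, fun j => ?_, hB⟩
  by_contra hne
  by_cases hc : s(φ (.v j), φ (.b 0)) ≠ e ∧ s(φ (.v j), φ (.s j)) ≠ e
  · exact hne (rig_step_v h hb0 (hs j) hc.1 hc.2)
  · have h1 : ψ (.v j) ≠ φ (.b 0) := by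
      rw [hb0]; intro h2; have := ψ.injective h2; simp at this
    have h2 : ψ (.v j) ≠ φ (.s j) := by
      rw [hs j]; intro h2; have := ψ.injective h2; simp at this
    obtain ⟨h3, h4⟩ := pair_avoid hne h1 h2 hc
    rw [hb0] at h3
    rw [hs j] at h4
    exact hne (rig_step_v h.symm hb0.symm (hs j).symm h3 h4).symm

/-- The leaf pair which carries bit `g`. -/
def bitS (φ : V ≃ ℕ) (g : ℕ) : Sym2 ℕ := s(φ (.v (2 * g)), φ (.v (2 * g + 1)))

lemma mem_bitS (φ : V ≃ ℕ) (c : ℕ → Bool) (g : ℕ) : bitS φ g ∈ (N φ c).edgeSet ↔ c g = true := by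
  unfold bitS
  rw [SimpleGraph.mem_edgeSet, N_adj]
  simp only [Equiv.symm_apply_apply, adj]
  have h1 : 2 * g / 2 = g := by omega
  have h2 : (2 * g + 1) / 2 = g := by omega
  rw [h1, h2]
  simp

/-- The contents differ only at the exceptional pair. -/
lemma content_eq (h : Agr (N φ c) (N ψ c') univ e) {g : ℕ} (hg : c g ≠ c' g) : bitS φ g = e := by
  by_contra hne
  obtain ⟨-, -, hv, -⟩ := rig h
  have h1 := h _ (mem_univ _) _ (mem_univ _) hne
  have h2 : (N φ c).Adj (φ (.v (2 * g))) (φ (.v (2 * g + 1))) ↔ c g = true := mem_bitS φ c g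
  have h3 : (N ψ c').Adj (φ (.v (2 * g))) (φ (.v (2 * g + 1))) ↔ c' g = true := by
    rw [hv, hv]; exact mem_bitS ψ c' g
  rw [h2, h3] at h1
  apply hg
  cases hc : c g <;> cases hc' : c' g <;> simp_all

/-- Two of these graphs which differ exactly at one pair differ at a bit. -/
lemma flip_bit {x y : ℕ} (hxy : x ≠ y) (h : Agr (N φ c) (N ψ c') univ s(x, y))
    (hdiff : ¬ ((N φ c).Adj x y ↔ (N ψ c').Adj x y)) : ∃ g, bitS φ g = s(x, y) := by
  obtain ⟨hb0, hs, hv, hB⟩ := rig h
  by_contra hno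
  push Not at hno
  apply hdiff
  rw [N_adj, N_adj]
  have hsame : ∀ z : V, z = .b 0 ∨ (∃ j, z = .s j) ∨ (∃ j, z = .v j) → ψ.symm (φ z) = z := by
    rintro z (rfl | ⟨j, rfl⟩ | ⟨j, rfl⟩)
    · rw [hb0]; simp
    · rw [hs]; simp
    · rw [hv]; simp
  obtain ⟨a, rfl⟩ := φ.surjective x
  obtain ⟨b, rfl⟩ := φ.surjective y
  have hab : a ≠ b := fun h => hxy (by rw [h])
  simp only [Equiv.symm_apply_apply]
  by_cases hBa : inB a
  · by_cases hBb : inB b
    · refine ⟨fun _ => ?_, fun _ => inB_adj c hBa hBb hab⟩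
      refine inB_adj c' ?_ ?_ (fun h => hab (φ.injective (ψ.symm.injective h)))
      · rw [← hB]; simpa using hBa
      · rw [← hB]; simpa using hBb
    · -- `b` is a hub or a leaf outside the base
      have hb : ψ.symm (φ b) = b := by
        apply hsame
        rcases b with i | i | i
        · exact absurd trivial hBb
        · exact Or.inr (Or.inl ⟨i, rfl⟩)
        · exact Or.inr (Or.inr ⟨i, rfl⟩)
      rw [hb]
      by_cases ha : a = .b 0 ∨ a = .s 0
      · have ha' : ψ.symm (φ a) = a := by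
          apply hsame
          rcases ha with rfl | rfl
          · exact Or.inl rfl
          · exact Or.inr (Or.inl ⟨0, rfl⟩)
        rw [ha']
        rcases a with i | i | i <;> rcases b with j | j | j <;> simp_all [adj, inB]
      · push Not at ha
        have hBa' : inB (ψ.symm (φ a)) := by rw [← hB]; simpa using hBa
        have h1 : ψ.symm (φ a) ≠ .b 0 := by
          intro h1
          apply ha.1
          apply φ.injective
          rw [hb0, ← h1]; simp
        have h2 : ψ.symm (φ a) ≠ .s 0 := by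
          intro h1
          apply ha.2
          apply φ.injective
          rw [hs 0, ← h1]; simp
        have hz : ∀ (c : ℕ → Bool) (z : V), inB z → z ≠ .b 0 → z ≠ .s 0 → ¬ adj c z b := by
          intro c z hz1 hz2 hz3 hz4
          exact hz3 (out1 c hz1 hBb hz4 hz2)
        exact ⟨fun h => absurd h (hz c a hBa ha.1 ha.2), fun h => absurd h (hz c' _ hBa' h1 h2)⟩
  · have ha : ψ.symm (φ a) = a := by
      apply hsame
      rcases a with i | i | i
      · exact absurd trivial hBa
      · exact Or.inr (Or.inl ⟨i, rfl⟩)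
      · exact Or.inr (Or.inr ⟨i, rfl⟩)
    rw [ha]
    by_cases hBb : inB b
    · by_cases hb : b = .b 0 ∨ b = .s 0
      · have hb' : ψ.symm (φ b) = b := by
          apply hsame
          rcases hb with rfl | rfl
          · exact Or.inl rfl
          · exact Or.inr (Or.inl ⟨0, rfl⟩)
        rw [hb']
        rcases a with i | i | i <;> rcases b with j | j | j <;> simp_all [adj, inB]
      · push Not at hb
        have hBb' : inB (ψ.symm (φ b)) := by rw [← hB]; simpa using hBb
        have h1 : ψ.symm (φ b) ≠ .b 0 := by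
          intro h1
          apply hb.1
          apply φ.injective
          rw [hb0, ← h1]; simp
        have h2 : ψ.symm (φ b) ≠ .s 0 := by
          intro h1
          apply hb.2
          apply φ.injective
          rw [hs 0, ← h1]; simp
        have hz : ∀ (c : ℕ → Bool) (z : V), inB z → z ≠ .b 0 → z ≠ .s 0 → ¬ adj c a z := by
          intro c z hz1 hz2 hz3 hz4
          exact hz3 (out1 c hz1 hBa (adj_symm c _ _ hz4) hz2)
        exact ⟨fun h => absurd h (hz c b hBb hb.1 hb.2), fun h => absurd h (hz c' _ hBb' h1 h2)⟩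
    · have hb : ψ.symm (φ b) = b := by
        apply hsame
        rcases b with i | i | i
        · exact absurd trivial hBb
        · exact Or.inr (Or.inl ⟨i, rfl⟩)
        · exact Or.inr (Or.inr ⟨i, rfl⟩)
      rw [hb]
      rcases a with i | i | i <;> rcases b with j | j | j
      · simp [adj]
      · simp [adj]
      · simp [adj]
      · simp [adj]
      · simp [adj]
      · simp [adj]
      · simp [adj]
      · simp [adj]
      · -- two leaves
        simp only [adj]
        by_cases hij : i ≠ j ∧ i / 2 = j / 2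
        · exfalso
          have hij' : (i = 2 * (i / 2) ∧ j = 2 * (i / 2) + 1) ∨
              (j = 2 * (i / 2) ∧ i = 2 * (i / 2) + 1) := by omega
          rcases hij' with ⟨h1, h2⟩ | ⟨h1, h2⟩
          · apply hno (i / 2)
            unfold bitS
            rw [← h2, ← h1]
          · apply hno (i / 2)
            unfold bitS
            rw [← h2, ← h1, Sym2.eq_swap]
        · constructor
          · rintro ⟨h1, h2, -⟩; exact absurd ⟨h1, h2⟩ hij
          · rintro ⟨h1, h2, -⟩; exact absurd ⟨h1, h2⟩ hij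

end

/-- The local conditions on the content: bits `4i`, `4i+1` are not both on, and exactly one of the
bits `4i+2`, `4i+3` is on. -/
def OK (c : ℕ → Bool) : Prop :=
  ∀ i, ¬ (c (4 * i) = true ∧ c (4 * i + 1) = true) ∧ c (4 * i + 2) = !c (4 * i + 3)

/-- Equality up to finitely many places. -/
def E0 (c c' : ℕ → Bool) : Prop := {g | c g ≠ c' g}.Finite

lemma E0.refl (c : ℕ → Bool) : E0 c c := by simp [E0]

lemma E0.symm {c c' : ℕ → Bool} (h : E0 c c') : E0 c' c := by
  unfold E0 at *
  simpa [ne_comm] using h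

lemma E0.trans {a b c : ℕ → Bool} (h1 : E0 a b) (h2 : E0 b c) : E0 a c := by
  refine (h1.union h2).subset ?_
  intro g hg
  by_contra hcon
  simp only [mem_union, mem_ofPred_eq, not_or, not_not] at hcon
  exact hg (hcon.1.trans hcon.2)

lemma E0_of_agr {φ ψ : V ≃ ℕ} {c c' : ℕ → Bool} {e : Sym2 ℕ}
    (h : Agr (N φ c) (N ψ c') univ e) : E0 c c' := by
  refine Set.Subsingleton.finite fun g hg g' hg' => ?_
  have h1 := content_eq h hg
  have h2 := content_eq h hg'
  rw [← h2] at h1
  unfold bitS at h1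
  rw [Sym2.eq_iff] at h1
  rcases h1 with ⟨h1, -⟩ | ⟨h1, -⟩
  · have := φ.injective h1
    simp only [V.v.injEq] at this
    omega
  · have := φ.injective h1
    simp only [V.v.injEq] at this
    omega

/-- The graph property attached to a set of contents. -/
def SS (B : Set (ℕ → Bool)) : Set (SimpleGraph ℕ) := {G | ∃ φ c, OK c ∧ c ∈ B ∧ G = N φ c}

lemma isProperty_SS (B : Set (ℕ → Bool)) : IsProperty (SS B) := by
  rintro G ⟨φ, c, hc, hB, rfl⟩ G' ⟨f⟩
  refine ⟨φ.trans f.toEquiv, c, hc, hB, ?_⟩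
  ext u w
  rw [N_adj]
  have h1 : ∀ u, (φ.trans f.toEquiv).symm u = φ.symm (f.symm u) := fun u => rfl
  rw [h1, h1]
  rw [← f.symm.map_adj_iff]
  rfl

end V11258.EQ
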