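import Pool.Agent.V11258.EQ.Rigid

/-! Seeker's plays against a winning strategy of Hider. -/

open Set Function

namespace V11258.EQ

instance : Countable Edge := by
  have : Countable (Sym2 ℕ) := by
    have : Function.Surjective (fun p : ℕ × ℕ => (s(p.1, p.2) : Sym2 ℕ)) := by
      intro e
      induction e using Sym2.ind with
      | _ x y => exact ⟨(x, y), rfl⟩
    exact this.countable
  infer_instance

lemma exists_edge_at (u : ℕ) (F : Finset Edge) : ∃ e : Edge, u ∈ e.1 ∧ e ∉ F := by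
  let f : ℕ → Edge := fun n => ⟨s(u, u + 1 + n), by simp; omega⟩
  have hf : Injective f := by
    intro a b hab
    have h1 : s(u, u + 1 + a) = s(u, u + 1 + b) := congrArg Subtype.val hab
    rw [Sym2.eq_iff] at h1
    omega
  obtain ⟨n, hn⟩ : ∃ n, f n ∉ F := by
    by_contra hcon
    push Not at hcon
    exact not_injective_infinite_finite (fun n => (⟨f n, hcon n⟩ : F))
      (fun a b hab => hf (by simpa using hab))
  exact ⟨f n, by simp [f], hn⟩

/-- Positions which are reached by legal play against `τ`. -/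
def Reach (τ : Pos → Edge → Bool) (p : Pos) : Prop :=
  (asked p).Nodup ∧ ∀ p' e b, p' ++ [(e, b)] <+: p → b = τ p' e

variable {τ : Pos → Edge → Bool}

lemma reach_nil : Reach τ [] := by
  refine ⟨by simp [asked], fun p' e b h => ?_⟩
  have := h.length_le
  simp at this

lemma Reach.restr {p q : Pos} (hq : Reach τ q) (h : p <+: q) : Reach τ p := by
  refine ⟨?_, fun p' e b h' => hq.2 p' e b (h'.trans h)⟩
  obtain ⟨t, rfl⟩ := h
  have := hq.1
  simp only [asked, List.map_append] at this ⊢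
  exact (List.nodup_append.1 this).1

lemma Reach.step {p : Pos} (hp : Reach τ p) {e : Edge} (he : e ∉ asked p) :
    Reach τ (p ++ [(e, τ p e)]) := by
  refine ⟨?_, fun p' e' b' h => ?_⟩
  · have : asked (p ++ [(e, τ p e)]) = asked p ++ [e] := by simp [asked]
    rw [this, List.nodup_append]
    refine ⟨hp.1, by simp, ?_⟩
    intro a ha b hb
    simp only [List.mem_singleton] at hb
    subst hb
    intro hab
    subst hab
    exact he ha
  · rcases Nat.lt_or_ge p'.length p.length with hlt | hge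
    · apply hp.2 p' e' b'
      exact List.prefix_of_prefix_length_le h (List.prefix_append _ _) (by simp; omega)
    · have hlen : (p' ++ [(e', b')]).length = (p ++ [(e, τ p e)]).length := by
        have := h.length_le
        simp at this ⊢
        omega
      have heq := h.eq_of_length hlen
      have := List.append_inj' heq (by simp)
      obtain ⟨h1, h2⟩ := this
      simp only [List.cons.injEq, Prod.mk.injEq, and_true] at h2
      rw [h1, h2.1, h2.2]

lemma reach_run {m : Run} (h : ∀ n, Reach τ (pos m n)) :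
    Legal m ∧ ∀ n, (m n).2 = τ (pos m n) (m n).1 := by
  constructor
  · intro n hn
    have h1 := (h (n + 1)).1
    rw [pos_succ] at h1
    simp only [asked, List.map_append, List.map_cons, List.map_nil] at h1
    have := (List.nodup_append.1 h1).2.2 _ hn (m n).1 (by simp)
    exact this rfl
  · intro n
    apply (h (n + 1)).2 (pos m n) (m n).1
    rw [pos_succ]

/-- A run in which Seeker always asks the first allowed edge. -/
lemma rule_run {p : Pos} (hp : Reach τ p) (A : Pos → Set Edge)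
    (hA : ∀ q, Reach τ q → p <+: q → ∃ e ∈ A q, e ∉ asked q) :
    ∃ m : Run, (∀ n, Reach τ (pos m n)) ∧ pos m p.length = p ∧
      (∀ n, p.length ≤ n → (m n).1 ∈ A (pos m n)) ∧
      ∀ e n0, (∀ n, n0 ≤ n → e ∈ A (pos m n)) → ∃ n, (m n).1 = e := by
  classical
  obtain ⟨enc, henc⟩ := exists_injective_nat Edge
  have hpick : ∀ q, ∃ e, (∃ e' ∈ A q, e' ∉ asked q) →
      e ∈ A q ∧ e ∉ asked q ∧ ∀ e' ∈ A q, e' ∉ asked q → enc e ≤ enc e' := by
    intro q
    by_cases h : ∃ e' ∈ A q, e' ∉ asked q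
    · have hex : ∃ n, ∃ e, e ∈ A q ∧ e ∉ asked q ∧ enc e = n := by
        obtain ⟨e', h1, h2⟩ := h
        exact ⟨_, e', h1, h2, rfl⟩
      obtain ⟨e, h1, h2, h3⟩ := Nat.find_spec hex
      refine ⟨e, fun _ => ⟨h1, h2, fun e' h4 h5 => ?_⟩⟩
      rw [h3]
      exact Nat.find_min' hex ⟨e', h4, h5, rfl⟩
    · obtain ⟨e, -, -⟩ := exists_edge_at 0 ∅
      exact ⟨e, fun h' => absurd h' h⟩
  choose pick hpick using hpick
  obtain ⟨m, hm0, hm⟩ := exists_run (fun q => (pick q, τ q (pick q))) p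
  have hR : ∀ n, p.length ≤ n → Reach τ (pos m n) ∧ p <+: pos m n := by
    intro n hn
    induction n, hn using Nat.le_induction with
    | base => rw [hm0]; exact ⟨hp, List.prefix_refl _⟩
    | succ n hn ih =>
      rw [pos_succ, hm n hn]
      obtain ⟨-, h2, -⟩ := hpick _ (hA _ ih.1 ih.2)
      exact ⟨ih.1.step h2, ih.2.trans (List.prefix_append _ _)⟩
  refine ⟨m, fun n => ?_, hm0, fun n hn => ?_, fun e n0 he => ?_⟩
  · exact (hR (max n p.length) (le_max_right _ _)).1.restr (pos_prefix m (le_max_left _ _))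
  · rw [hm n hn]
    exact (hpick _ (hA _ (hR n hn).1 (hR n hn).2)).1
  · by_contra hcon
    push Not at hcon
    let M := max n0 p.length
    have hle : ∀ n, enc (m (M + n)).1 < enc e + 1 := by
      intro n
      have h1 : p.length ≤ M + n := le_trans (le_max_right _ _) (Nat.le_add_right _ _)
      have h2 : n0 ≤ M + n := le_trans (le_max_left _ _) (Nat.le_add_right _ _)
      rw [hm _ h1]
      have h3 := (hpick _ (hA _ (hR _ h1).1 (hR _ h1).2)).2.2 e (he _ h2) (by
        rw [mem_asked_pos]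
        rintro ⟨k, -, hk⟩
        exact hcon k hk)
      simp only
      omega
    have hL : Legal m := (reach_run fun n =>
      (hR (max n p.length) (le_max_right _ _)).1.restr (pos_prefix m (le_max_left _ _))).1
    refine not_injective_infinite_finite (fun n => (⟨enc (m (M + n)).1, hle n⟩ : Fin (enc e + 1))) ?_
    intro a b hab
    simp only [Fin.mk.injEq] at hab
    have := legal_inj hL (henc hab)
    omega

/-- A run which asks all edges except `e0`. -/
lemma run_except {p : Pos} (hp : Reach τ p) {e0 : Edge} (he0 : e0 ∉ asked p) :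
    ∃ m : Run, (∀ n, Reach τ (pos m n)) ∧ pos m p.length = p ∧
      (∀ e, e ≠ e0 → ∃ n, (m n).1 = e) ∧ ∀ n, (m n).1 ≠ e0 := by
  classical
  obtain ⟨m, h1, h2, h3, h4⟩ := rule_run hp (fun _ => {e | e ≠ e0}) (by
    intro q _ _
    obtain ⟨e, -, he⟩ := exists_edge_at 0 (insert e0 (asked q).toFinset)
    simp only [Finset.mem_insert, List.mem_toFinset, not_or] at he
    exact ⟨e, he.1, he.2⟩)
  refine ⟨m, h1, h2, fun e he => h4 e 0 (fun n _ => he), fun n hn => ?_⟩
  rcases Nat.lt_or_ge n p.length with h | h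
  · apply he0
    rw [← h2, mem_asked_pos]
    exact ⟨n, h, hn⟩
  · exact h3 n h hn

/-- `τ` wins the game for the property of `B`. -/
def Wins (B : Set (ℕ → Bool)) (τ : Pos → Edge → Bool) : Prop :=
  ∀ m : Run, Legal m → (∀ n, (m n).2 = τ (pos m n) (m n).1) → ¬ SeekerWinsRun (SS B) m

variable {B : Set (ℕ → Bool)}

lemma win_run (hw : Wins B τ) {m : Run} (hm : ∀ n, Reach τ (pos m n)) {e0 : Edge}
    (he0 : ∀ n, (m n).1 ≠ e0) :
    ¬ Poss m ⊆ SS B ∧ ∃ φ c, OK c ∧ c ∈ B ∧ N φ c ∈ Poss m := by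
  obtain ⟨hL, hτ⟩ := reach_run hm
  have h := hw m hL hτ
  unfold SeekerWinsRun at h
  have hne : (White m).Nonempty := ⟨e0, he0⟩
  push Not at h
  obtain ⟨h1, h2⟩ := h hne
  refine ⟨h1, ?_⟩
  obtain ⟨G, hG, φ, c, hc, hB, rfl⟩ := h2
  exact ⟨φ, c, hc, hB, hG⟩

/-- Each reached position agrees with a graph in the property. -/
lemma claim0 (hw : Wins B τ) {p : Pos} (hp : Reach τ p) :
    ∃ φ c, OK c ∧ c ∈ B ∧ Con p (N φ c) := by
  classical
  obtain ⟨e0, -, he0⟩ := exists_edge_at 0 (asked p).toFinset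
  obtain ⟨m, h1, h2, -, h4⟩ := run_except hp (e0 := e0) (by simpa using he0)
  obtain ⟨-, φ, c, hc, hB, hG⟩ := win_run hw h1 h4
  refine ⟨φ, c, hc, hB, ?_⟩
  rw [← h2]
  exact con_pos (reach_run h1).1 hG _

/-- The vertex `x` of the skeleton is identified as `u`. -/
def Idn (p : Pos) (x : V) (u : ℕ) : Prop := ∀ φ c, OK c → Con p (N φ c) → φ x = u

lemma Idn.mono {p q : Pos} (h : p <+: q) {x : V} {u : ℕ} (hp : Idn p x u) : Idn q x u :=
  fun φ c hc hcon => hp φ c hc (hcon.mono h)

/-- The base is identified. -/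
def BaseAt (p : Pos) (u0 w0 us : ℕ) (U : Set ℕ) : Prop :=
  ∀ ψ c, OK c → Con p (N ψ c) → ψ (.b 0) = u0 ∧ ψ (.s 0) = w0 ∧
    (∀ u, u ∈ U ↔ inB (ψ.symm u)) ∧ us ∈ U ∧ us ≠ u0 ∧ us ≠ w0

lemma finite_F0 : F0.Finite := by
  have : F0 ⊆ (range V.b ∪ {.s 0, .s 1, .s 2, .s 3, .s 4, .v 0} : Set V) := by
    rintro x hx
    rcases hx with h | rfl | rfl | rfl | rfl | rfl
    · rcases x with i | i | i
      · exact Or.inl ⟨i, rfl⟩
      · simp only [inB] at h; subst h; right; simp
      · exact absurd h (by simp [inB])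
    all_goals (right; simp)
  exact ((finite_range _).union (by simp)).subset this

/-- Two graphs which agree with a position agree on the asked edges. -/
lemma con_agree {p : Pos} {G H : SimpleGraph ℕ} (hG : Con p G) (hH : Con p H) {e : Edge}
    (he : e ∈ asked p) : e.1 ∈ G.edgeSet ↔ e.1 ∈ H.edgeSet := by
  obtain ⟨b, hb⟩ := mem_asked.1 he
  exact (hG _ hb).trans (hH _ hb).symm

lemma phase1 (hw : Wins B τ) : ∃ p, Reach τ p ∧ ∃ u0 w0 us U, BaseAt p u0 w0 us U := by
  classical
  obtain ⟨e0, -, -⟩ := exists_edge_at 0 ∅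
  obtain ⟨m, h1, h2, h3, h4⟩ := run_except (τ := τ) reach_nil (e0 := e0) (by simp [asked])
  obtain ⟨-, φ, c, hc, hB, hG⟩ := win_run hw h1 h4
  have hL := (reach_run h1).1
  have hD : (φ '' F0).Finite := finite_F0.image _
  have hst : ∀ x : ℕ × ℕ, ∃ n, ∀ h : ¬ (s(x.1, x.2) : Sym2 ℕ).IsDiag, s(x.1, x.2) ≠ e0.1 →
      (⟨s(x.1, x.2), h⟩ : Edge) ∈ asked (pos m n) := by
    intro x
    by_cases h : ¬ (s(x.1, x.2) : Sym2 ℕ).IsDiag
    · by_cases hne : s(x.1, x.2) = e0.1
      · exact ⟨0, fun _ h' => absurd hne h'⟩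
      · obtain ⟨n, hn⟩ := h3 ⟨s(x.1, x.2), h⟩ (fun h' => hne (by rw [← h']))
        exact ⟨n + 1, fun _ _ => mem_asked_pos.2 ⟨n, by omega, hn⟩⟩
    · exact ⟨0, fun h' => absurd h' h⟩
  choose f hf using hst
  let M := ((hD.prod hD).toFinset).sup f
  refine ⟨pos m M, h1 M, φ (.b 0), φ (.s 0), φ (.b 1), {u | inB (φ.symm u)}, ?_⟩
  intro ψ c' hc' hcon
  have hagr : Agr (N φ c) (N ψ c') (φ '' F0) e0.1 := by
    intro u hu w hw' hne
    by_cases huw : u = w
    · subst huw; simp
    · have hnd : ¬ (s(u, w) : Sym2 ℕ).IsDiag := by simpa using huw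
      have h5 : f (u, w) ≤ M := Finset.le_sup (f := f)
        ((Set.Finite.mem_toFinset _).2 ⟨hu, hw'⟩)
      have h6 := asked_mono (pos_prefix m h5) (hf (u, w) hnd hne)
      exact con_agree (con_pos hL hG M) hcon h6
  refine ⟨(base_b0 hagr).symm, (base_s0 hagr).symm, fun u => base_eq hagr u, ?_, ?_, ?_⟩
  · simp [inB]
  · intro h; have := φ.injective h; simp at this
  · intro h; have := φ.injective h; simp at this

/-- The leaf pair of bit `g`, as an edge. -/
def bitE (φ : V ≃ ℕ) (g : ℕ) : Edge := ⟨bitS φ g, by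
  unfold bitS
  simp only [Sym2.mk_isDiag_iff]
  intro h
  have := φ.injective h
  simp at this⟩

lemma bitE_inj (φ : V ≃ ℕ) : Injective (bitE φ) := by
  intro g g' h
  have h1 : bitS φ g = bitS φ g' := congrArg Subtype.val h
  unfold bitS at h1
  rw [Sym2.eq_iff] at h1
  rcases h1 with ⟨h1, -⟩ | ⟨h1, -⟩
  · have := φ.injective h1
    simp only [V.v.injEq] at this
    omega
  · have := φ.injective h1
    simp only [V.v.injEq] at this
    omega

/-- Seeker can reach a position where a gadget is identified and still unasked. -/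
lemma claimA (hw : Wins B τ) {p0 p : Pos} {u0 w0 us : ℕ} {U : Set ℕ}
    (hbase : BaseAt p0 u0 w0 us U) (hp0 : p0 <+: p) (hp : Reach τ p) {e0 : Edge}
    (hus : us ∈ e0.1) (he0 : e0 ∉ asked p) :
    ∃ q, p <+: q ∧ Reach τ q ∧ e0 ∉ asked q ∧ ∃ i, ∃ ea eb : Edge, ea ≠ eb ∧ ea ∉ asked q ∧
      eb ∉ asked q ∧ ea ≠ e0 ∧ eb ≠ e0 ∧
      ∀ ψ c, OK c → Con q (N ψ c) → bitS ψ (4 * i) = ea.1 ∧ bitS ψ (4 * i + 1) = eb.1 := by
  classical
  let Hub : Pos → ℕ → Prop := fun q u => Idn q (.b 0) u ∨ ∃ j, Idn q (.s j) u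
  have hHubm : ∀ {q q' : Pos} {u : ℕ}, q <+: q' → Hub q u → Hub q' u := by
    rintro q q' u h (h' | ⟨j, h'⟩)
    · exact Or.inl (h'.mono h)
    · exact Or.inr ⟨j, h'.mono h⟩
  have hu0 : ∀ q, p <+: q → Idn q (.b 0) u0 := fun q hq ψ c hc hcon =>
    (hbase ψ c hc (hcon.mono (hp0.trans hq))).1
  obtain ⟨m, h1, h2, h3, h4⟩ := rule_run hp
    (fun q => {e | e ≠ e0 ∧ ∃ u, Hub q u ∧ u ∈ e.1}) (by
    intro q _ hq
    obtain ⟨e, hue, he⟩ := exists_edge_at u0 (insert e0 (asked q).toFinset)
    simp only [Finset.mem_insert, List.mem_toFinset, not_or] at he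
    exact ⟨e, ⟨he.1, u0, Or.inl (hu0 q hq), hue⟩, he.2⟩)
  have hne0 : ∀ n, (m n).1 ≠ e0 := by
    intro n hn
    rcases Nat.lt_or_ge n p.length with h | h
    · apply he0
      rw [← h2, mem_asked_pos]
      exact ⟨n, h, hn⟩
    · exact (h3 n h).1 hn
  obtain ⟨-, φ, c, hc, hB, hG⟩ := win_run hw h1 hne0
  have hL := (reach_run h1).1
  have hcon : ∀ n, Con (pos m n) (N φ c) := con_pos hL hG
  have hpn : ∀ n, p.length ≤ n → p <+: pos m n := fun n hn => by
    conv_lhs => rw [← h2]
    exact pos_prefix m hn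
  obtain ⟨hb0, hs0, hU, husU, husu0, husw0⟩ := hbase φ c hc ((hcon p.length).mono (by
    rw [h2]; exact hp0))
  -- a vertex outside the base gets compared with `b 0` and with an identified hub
  have hcmp : ∀ (w j n0 : ℕ), p.length ≤ n0 → Idn (pos m n0) (.s j) (φ (.s j)) →
      ¬ inB (φ.symm w) → w ≠ φ (.s j) → ∃ n, n0 ≤ n ∧ ∀ ψ c', OK c' → Con (pos m n) (N ψ c') →
        (adj c' (ψ.symm w) (.b 0) ↔ adj c (φ.symm w) (.b 0)) ∧
        (adj c' (ψ.symm w) (.s j) ↔ adj c (φ.symm w) (.s j)) ∧ ¬ inB (ψ.symm w) := by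
    intro w j n0 hn0 hid hwB hws
    have hwb0 : w ≠ φ (.b 0) := by rintro rfl; exact hwB (by simp [inB])
    let E1 : Edge := ⟨s(w, φ (.b 0)), by simpa using hwb0⟩
    let E2 : Edge := ⟨s(w, φ (.s j)), by simpa using hws⟩
    have husw : us ≠ w := by
      rintro rfl; exact hwB ((hU us).1 husU)
    obtain ⟨n1, hn1⟩ := h4 E1 n0 (fun n hn => ⟨by
        intro h
        rw [← h] at hus
        simp only [E1, Sym2.mem_iff] at hus
        rcases hus with h | h
        · exact husw h
        · exact husu0 (by rw [h, hb0]),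
        φ (.b 0), Or.inl (by rw [hb0]; exact hu0 _ (hpn n (hn0.trans hn))), by simp [E1]⟩)
    obtain ⟨n2, hn2⟩ := h4 E2 n0 (fun n hn => ⟨by
        intro h
        rw [← h] at hus
        simp only [E2, Sym2.mem_iff] at hus
        rcases hus with h | h
        · exact husw h
        · have h5 := (hU us).1 husU
          rw [h] at h5
          simp only [Equiv.symm_apply_apply, inB] at h5
          apply husw0
          rw [h, h5, hs0],
        φ (.s j), Or.inr ⟨j, hid.mono (pos_prefix m hn)⟩, by simp [E2]⟩)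
    refine ⟨max n0 (max (n1 + 1) (n2 + 1)), le_max_left _ _, fun ψ c' hc' hcon' => ?_⟩
    have hA1 : E1 ∈ asked (pos m (max n0 (max (n1 + 1) (n2 + 1)))) :=
      mem_asked_pos.2 ⟨n1, by omega, hn1⟩
    have hA2 : E2 ∈ asked (pos m (max n0 (max (n1 + 1) (n2 + 1)))) :=
      mem_asked_pos.2 ⟨n2, by omega, hn2⟩
    have h5 := con_agree hcon' (hcon _) hA1
    have h6 := con_agree hcon' (hcon _) hA2
    obtain ⟨hb0', hs0', hU', -⟩ := hbase ψ c' hc' (hcon'.mono (hp0.trans (hpn _ (by omega))))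
    have h7 : ψ (.s j) = φ (.s j) :=
      hid ψ c' hc' (hcon'.mono (pos_prefix m (le_max_left _ _)))
    simp only [E1, E2, SimpleGraph.mem_edgeSet, N_adj, Equiv.symm_apply_apply] at h5 h6
    have h8 : ψ.symm (φ (.b 0)) = .b 0 := by rw [hb0, ← hb0']; simp
    have h9 : ψ.symm (φ (.s j)) = .s j := by rw [← h7]; simp
    rw [h8] at h5
    rw [h9] at h6
    exact ⟨h5, h6, by rw [← hU', hU]; exact hwB⟩
  -- hubs
  have hhub : ∀ j, ∃ n, p.length ≤ n ∧ ∀ i ≤ j, Idn (pos m n) (.s i) (φ (.s i)) := by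
    intro j
    induction j with
    | zero =>
      refine ⟨p.length, le_rfl, fun i hi ψ c' hc' hcon' => ?_⟩
      have hi0 : i = 0 := by omega
      subst hi0
      rw [hs0]
      exact (hbase ψ c' hc' (hcon'.mono (hp0.trans (hpn _ le_rfl)))).2.1
    | succ j ih =>
      obtain ⟨n0, hn0, hid⟩ := ih
      obtain ⟨n, hn, hcm⟩ := hcmp (φ (.s (j + 1))) j n0 hn0 (hid j le_rfl) (by simp [inB])
        (by intro h; have := φ.injective h; simp only [V.s.injEq] at this; omega)
      refine ⟨n, hn0.trans hn, fun i hi => ?_⟩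
      rcases Nat.lt_or_ge i (j + 1) with h | h
      · exact (hid i (by omega)).mono (pos_prefix m hn)
      · have hij : i = j + 1 := by omega
        subst hij
        intro ψ c' hc' hcon'
        obtain ⟨a1, a2, a3⟩ := hcm ψ c' hc' hcon'
        have h5 : ψ.symm (φ (.s (j + 1))) = .s (j + 1) := by
          refine next_hub (a1.2 (by simp [adj])) (a2.2 (by simp [adj])) a3 ?_
          intro i hi heq
          have h6 : φ (.s (j + 1)) = ψ (.s i) := by rw [← heq]; simp
          have h7 := (hid i hi.le).mono (pos_prefix m hn) ψ c' hc' hcon'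
          rw [h7] at h6
          have := φ.injective h6
          simp only [V.s.injEq] at this
          omega
        exact (ψ.symm_apply_eq.1 h5).symm
  -- leaves
  have hleaf : ∀ j, ∃ n, p.length ≤ n ∧ ∀ i ≤ j, Idn (pos m n) (.v i) (φ (.v i)) := by
    have hone : ∀ j, ∃ n, p.length ≤ n ∧ Idn (pos m n) (.v j) (φ (.v j)) := by
      intro j
      obtain ⟨n0, hn0, hid⟩ := hhub j
      obtain ⟨n, hn, hcm⟩ := hcmp (φ (.v j)) j n0 hn0 (hid j le_rfl) (by simp [inB])
        (by intro h; have := φ.injective h; simp at this)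
      refine ⟨n, hn0.trans hn, fun ψ c' hc' hcon' => ?_⟩
      obtain ⟨a1, a2, a3⟩ := hcm ψ c' hc' hcon'
      have h5 : ψ.symm (φ (.v j)) = .v j := by
        refine next_leaf (fun h => ?_) (a2.2 (by simp [adj])) ?_
        · have := a1.1 h
          simp [adj] at this
        · intro h; rw [h] at a3; exact a3 trivial
      exact (ψ.symm_apply_eq.1 h5).symm
    intro j
    induction j with
    | zero =>
      obtain ⟨n, hn, hid⟩ := hone 0
      refine ⟨n, hn, fun i hi => ?_⟩
      have : i = 0 := by omega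
      subst this; exact hid
    | succ j ih =>
      obtain ⟨n1, hn1, hid1⟩ := ih
      obtain ⟨n2, hn2, hid2⟩ := hone (j + 1)
      refine ⟨max n1 n2, by omega, fun i hi => ?_⟩
      rcases Nat.lt_or_ge i (j + 1) with h | h
      · exact (hid1 i (by omega)).mono (pos_prefix m (le_max_left _ _))
      · have : i = j + 1 := by omega
        subst this
        exact hid2.mono (pos_prefix m (le_max_right _ _))
  -- a fresh gadget
  have hfin : {g | bitE φ g ∈ asked p ∨ bitE φ g = e0}.Finite := by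
    have : {g | bitE φ g ∈ asked p ∨ bitE φ g = e0} ⊆
        (bitE φ) ⁻¹' (↑(insert e0 (asked p).toFinset) : Set Edge) := by
      rintro g (hg | hg)
      · simp [hg]
      · simp [hg]
    exact (Set.Finite.preimage (bitE_inj φ).injOn (Finset.finite_toSet _)).subset this
  obtain ⟨M, hM⟩ := hfin.bddAbove
  have hgood : ∀ g, M < g → (∀ n, bitE φ g ∉ asked (pos m n)) ∧ bitE φ g ≠ e0 := by
    intro g hg
    have hnot : ¬ (bitE φ g ∈ asked p ∨ bitE φ g = e0) := fun h => by
      have := hM h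
      omega
    push Not at hnot
    refine ⟨fun n hn => ?_, hnot.2⟩
    obtain ⟨k, -, hk⟩ := mem_asked_pos.1 hn
    rcases Nat.lt_or_ge k p.length with h | h
    · apply hnot.1
      rw [← h2]
      exact mem_asked_pos.2 ⟨k, h, hk⟩
    · obtain ⟨-, u, hu, hue⟩ := h3 k h
      rw [hk] at hue
      have hu' : u = φ (.b 0) ∨ ∃ j, u = φ (.s j) := by
        rcases hu with hu | ⟨j, hu⟩
        · exact Or.inl (hu φ c hc (hcon k)).symm
        · exact Or.inr ⟨j, (hu φ c hc (hcon k)).symm⟩
      have hue' : u = φ (.v (2 * g)) ∨ u = φ (.v (2 * g + 1)) := by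
        simpa [bitE, bitS] using hue
      rcases hu' with rfl | ⟨j, rfl⟩
      · rcases hue' with h | h
        · have := φ.injective h; simp at this
        · have := φ.injective h; simp at this
      · rcases hue' with h | h
        · have := φ.injective h; simp at this
        · have := φ.injective h; simp at this
  obtain ⟨n, hn, hid⟩ := hleaf (8 * (M + 1) + 3)
  refine ⟨pos m n, hpn n hn, h1 n, ?_, M + 1, bitE φ (4 * (M + 1)), bitE φ (4 * (M + 1) + 1),
    ?_, ?_, ?_, ?_, ?_, ?_⟩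
  · rw [mem_asked_pos]; rintro ⟨k, -, hk⟩; exact hne0 k hk
  · intro h; have := bitE_inj φ h; omega
  · exact (hgood _ (by omega)).1 n
  · exact (hgood _ (by omega)).1 n
  · exact (hgood _ (by omega)).2
  · exact (hgood _ (by omega)).2
  · intro ψ c' hc' hcon'
    have h5 : ∀ i ≤ 8 * (M + 1) + 3, ψ (.v i) = φ (.v i) := fun i hi => hid i hi ψ c' hc' hcon'
    constructor
    · change s(_, _) = s(_, _)
      rw [h5 _ (by omega), h5 _ (by omega)]
    · change s(_, _) = s(_, _)
      rw [h5 _ (by omega), h5 _ (by omega)]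

end V11258.EQ
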