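import Pool.Agent.V11258.EQ.Seek

/-! A perfect tree of plays against a winning strategy of Hider. -/

open Set Function

namespace V11258.EQ

variable {τ : Pos → Edge → Bool} {B : Set (ℕ → Bool)}

lemma N_congr {ψ : V ≃ ℕ} {c c1 : ℕ → Bool} {g' : ℕ} (h : ∀ g, g ≠ g' → c g = c1 g) {e : Edge}
    (he : e.1 ≠ bitS ψ g') : e.1 ∈ (N ψ c).edgeSet ↔ e.1 ∈ (N ψ c1).edgeSet := by
  obtain ⟨e, hd⟩ := e
  induction e using Sym2.ind with
  | _ x y =>
    simp only [SimpleGraph.mem_edgeSet, N_adj]
    obtain ⟨a, rfl⟩ := ψ.surjective x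
    obtain ⟨b, rfl⟩ := ψ.surjective y
    simp only [Equiv.symm_apply_apply]
    rcases a with i | i | i <;> rcases b with j | j | j <;> simp only [adj]
    by_cases hij : i ≠ j ∧ i / 2 = j / 2
    · have hg : i / 2 ≠ g' := by
        intro hg
        have hij' : (i = 2 * g' ∧ j = 2 * g' + 1) ∨ (j = 2 * g' ∧ i = 2 * g' + 1) := by omega
        rcases hij' with ⟨h1, h2⟩ | ⟨h1, h2⟩
        · apply he
          simp only [bitS]
          rw [h1, h2]
        · apply he
          simp only [bitS]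
          rw [h1, h2, Sym2.eq_swap]
      rw [h _ hg]
    · constructor
      · rintro ⟨h1, h2, -⟩; exact absurd ⟨h1, h2⟩ hij
      · rintro ⟨h1, h2, -⟩; exact absurd ⟨h1, h2⟩ hij

lemma OK_update {c : ℕ → Bool} (hc : OK c) {i g g' : ℕ}
    (hg : (g = 4 * i ∧ g' = 4 * i + 1) ∨ (g = 4 * i + 1 ∧ g' = 4 * i)) (h0 : c g = false)
    (b : Bool) : OK (update c g' b) := by
  intro k
  obtain ⟨h1, h2⟩ := hc k
  rcases hg with ⟨rfl, rfl⟩ | ⟨rfl, rfl⟩
  · by_cases hk : k = i
    · subst hk
      refine ⟨?_, ?_⟩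
      · rw [update_of_ne (by omega), h0]; simp
      · rw [update_of_ne (by omega), update_of_ne (by omega)]; exact h2
    · rw [update_of_ne (by omega), update_of_ne (by omega), update_of_ne (by omega),
        update_of_ne (by omega)]
      exact ⟨h1, h2⟩
  · by_cases hk : k = i
    · subst hk
      refine ⟨?_, ?_⟩
      · rw [update_of_ne (a := 4 * k + 1) (by omega), h0]; simp
      · rw [update_of_ne (by omega), update_of_ne (by omega)]; exact h2
    · rw [update_of_ne (by omega), update_of_ne (by omega), update_of_ne (by omega),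
        update_of_ne (by omega)]
      exact ⟨h1, h2⟩

lemma E0_update (c : ℕ → Bool) (g : ℕ) (b : Bool) : E0 c (update c g b) := by
  refine (Set.finite_singleton g).subset fun k hk => ?_
  by_contra hne
  exact hk (by rw [update_of_ne (by simpa using hne)])

lemma con_last {p : Pos} {e : Edge} {b : Bool} {G : SimpleGraph ℕ} (h : Con (p ++ [(e, b)]) G) :
    e.1 ∈ G.edgeSet ↔ b = true := h (e, b) (by simp)

/-- The forced answers at an identified gadget. -/
lemma forced (hw : Wins B τ) (hB : ∀ c ∈ B, ∀ c', E0 c c' → c' ∈ B) {q : Pos}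
    (hq : Reach τ q) {ea eb : Edge} (hab : ea ≠ eb) (ha : ea ∉ asked q) (hb : eb ∉ asked q)
    {i g g' : ℕ} (hg : (g = 4 * i ∧ g' = 4 * i + 1) ∨ (g = 4 * i + 1 ∧ g' = 4 * i))
    (hid : ∀ ψ c, OK c → Con q (N ψ c) → bitS ψ g = ea.1 ∧ bitS ψ g' = eb.1) :
    τ q ea = true ∧ τ (q ++ [(ea, true)]) eb = false := by
  classical
  have h1 : τ q ea = true := by
    by_contra hfalse
    have hfalse' : τ q ea = false := by simpa using hfalse
    have hq' := hq.step ha
    rw [hfalse'] at hq'
    have hb' : eb ∉ asked (q ++ [(ea, false)]) := by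
      rw [asked_append]
      simp only [not_or]
      exact ⟨hb, hab.symm⟩
    obtain ⟨m, m1, m2, m3, m4⟩ := run_except hq' hb'
    obtain ⟨hns, ψ, c, hc, hcB, hG⟩ := win_run hw m1 m4
    have hL := (reach_run m1).1
    have hcon : Con (q ++ [(ea, false)]) (N ψ c) := by rw [← m2]; exact con_pos hL hG _
    obtain ⟨hbg, hbg'⟩ := hid ψ c hc (hcon.mono (List.prefix_append _ _))
    have hcg : c g = false := by
      have h2 := con_last hcon
      rw [← hbg, mem_bitS] at h2
      simpa using h2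
    apply hns
    intro H hH
    let b : Bool := decide (eb.1 ∈ H.edgeSet)
    refine ⟨ψ, update c g' b, OK_update hc hg hcg b, hB c hcB _ (E0_update c g' b), ?_⟩
    rw [← SimpleGraph.edgeSet_inj]
    ext e
    by_cases hd : e.IsDiag
    · constructor
      · intro he; exact absurd hd (SimpleGraph.not_isDiag_of_mem_edgeSet _ he)
      · intro he; exact absurd hd (SimpleGraph.not_isDiag_of_mem_edgeSet _ he)
    · by_cases hee : e = eb.1
      · rw [hee, ← hbg', mem_bitS]
        simp [b, hbg']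
      · have hne : (⟨e, hd⟩ : Edge) ≠ eb := fun h => hee (by rw [← h])
        obtain ⟨n, hn⟩ := m3 ⟨e, hd⟩ hne
        have hask : (⟨e, hd⟩ : Edge) ∈ asked (pos m (n + 1)) := mem_asked_pos.2 ⟨n, by omega, hn⟩
        have h2 := con_agree (con_pos hL hH (n + 1)) (con_pos hL hG (n + 1)) hask
        have h3 := N_congr (ψ := ψ) (c := c) (c1 := update c g' b) (g' := g') (e := ⟨e, hd⟩)
          (fun k hk => by rw [update_of_ne hk]) (by rw [hbg']; exact hee)
        exact h2.trans h3
  refine ⟨h1, ?_⟩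
  by_contra htrue
  have htrue' : τ (q ++ [(ea, true)]) eb = true := by simpa using htrue
  have hq1 := hq.step ha
  rw [h1] at hq1
  have hb' : eb ∉ asked (q ++ [(ea, true)]) := by
    rw [asked_append]
    simp only [not_or]
    exact ⟨hb, hab.symm⟩
  have hq2 := hq1.step hb'
  rw [htrue'] at hq2
  obtain ⟨ψ, c, hc, -, hcon⟩ := claim0 hw hq2
  have hcon1 := hcon.mono (List.prefix_append _ _)
  obtain ⟨hbg, hbg'⟩ := hid ψ c hc (hcon1.mono (List.prefix_append _ _))
  have h2 := con_last hcon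
  have h3 := con_last hcon1
  rw [← hbg', mem_bitS] at h2
  rw [← hbg, mem_bitS] at h3
  have h4 := (hc i).1
  rcases hg with ⟨rfl, rfl⟩ | ⟨rfl, rfl⟩
  · exact h4 ⟨h3.2 rfl, h2.2 rfl⟩
  · exact h4 ⟨h2.2 rfl, h3.2 rfl⟩

/-- Asking one more edge. -/
lemma ask_one {p : Pos} (hp : Reach τ p) {e0 : Edge} (he0 : e0 ∉ asked p) (e : Edge) :
    ∃ q, p <+: q ∧ Reach τ q ∧ e0 ∉ asked q ∧ (e ≠ e0 → e ∈ asked q) := by
  by_cases h : e ∈ asked p ∨ e = e0
  · exact ⟨p, List.prefix_refl _, hp, he0, fun hne => h.resolve_right hne⟩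
  · push Not at h
    refine ⟨p ++ [(e, τ p e)], List.prefix_append _ _, hp.step h.1, ?_, fun _ => ?_⟩
    · rw [asked_append]
      simp only [not_or]
      exact ⟨he0, fun h' => h.2 h'.symm⟩
    · rw [asked_append]; exact Or.inr rfl

/-- Splitting. -/
lemma split (hw : Wins B τ) (hB : ∀ c ∈ B, ∀ c', E0 c c' → c' ∈ B) {p0 p : Pos}
    {u0 w0 us : ℕ} {U : Set ℕ} (hbase : BaseAt p0 u0 w0 us U) (hp0 : p0 <+: p)
    (hp : Reach τ p) {e0 : Edge} (hus : us ∈ e0.1) (he0 : e0 ∉ asked p) (e : Edge) :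
    ∃ q : Bool → Pos, (∀ b, p <+: q b ∧ p.length < (q b).length ∧ Reach τ (q b) ∧
      e0 ∉ asked (q b) ∧ (e ≠ e0 → e ∈ asked (q b))) ∧
      ∃ g, ∀ b ψ c, OK c → Con (q b) (N ψ c) → c g = b := by
  obtain ⟨q, hpq, hq, he0q, i, ea, eb, hab, ha, hb, hae, hbe, hid⟩ :=
    claimA hw hbase hp0 hp hus he0
  obtain ⟨f1, f2⟩ := forced hw hB hq hab ha hb (Or.inl ⟨rfl, rfl⟩) hid
  obtain ⟨f3, f4⟩ := forced hw hB hq hab.symm hb ha (Or.inr ⟨rfl, rfl⟩)
    (fun ψ c hc hcon => (hid ψ c hc hcon).symm)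
  have ha1 : ea ∉ asked (q ++ [(eb, true)]) := by
    rw [asked_append]; simp only [not_or]; exact ⟨ha, hab⟩
  have hb1 : eb ∉ asked (q ++ [(ea, true)]) := by
    rw [asked_append]; simp only [not_or]; exact ⟨hb, hab.symm⟩
  have r1 : Reach τ (q ++ [(ea, true)] ++ [(eb, false)]) := by
    have h1 := hq.step ha
    rw [f1] at h1
    have h2 := h1.step hb1
    rwa [f2] at h2
  have r2 : Reach τ (q ++ [(eb, true)] ++ [(ea, false)]) := by
    have h1 := hq.step hb
    rw [f3] at h1
    have h2 := h1.step ha1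
    rwa [f4] at h2
  have n1 : e0 ∉ asked (q ++ [(ea, true)] ++ [(eb, false)]) := by
    rw [asked_append, asked_append]; simp only [not_or]
    exact ⟨⟨he0q, hae.symm⟩, hbe.symm⟩
  have n2 : e0 ∉ asked (q ++ [(eb, true)] ++ [(ea, false)]) := by
    rw [asked_append, asked_append]; simp only [not_or]
    exact ⟨⟨he0q, hbe.symm⟩, hae.symm⟩
  obtain ⟨q1, a1, a2, a3, a4⟩ := ask_one r1 n1 e
  obtain ⟨q2, b1, b2, b3, b4⟩ := ask_one r2 n2 e
  have hl := hpq.length_le
  refine ⟨fun b => if b then q1 else q2, ?_, 4 * i, ?_⟩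
  · intro b
    cases b
    · simp only [Bool.false_eq_true, if_false]
      refine ⟨hpq.trans ((List.prefix_append _ _).trans ((List.prefix_append _ _).trans b1)),
        ?_, b2, b3, b4⟩
      have := b1.length_le
      simp only [List.length_append, List.length_singleton] at this
      omega
    · simp only [if_true]
      refine ⟨hpq.trans ((List.prefix_append _ _).trans ((List.prefix_append _ _).trans a1)),
        ?_, a2, a3, a4⟩
      have := a1.length_le
      simp only [List.length_append, List.length_singleton] at this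
      omega
  · intro b ψ c hc hcon
    cases b
    · simp only [Bool.false_eq_true, if_false] at hcon
      have h1 := hcon.mono b1
      obtain ⟨hbg, -⟩ := hid ψ c hc ((h1.mono (List.prefix_append _ _)).mono
        (List.prefix_append _ _))
      have h2 := con_last h1
      rw [← hbg, mem_bitS] at h2
      simpa using h2
    · simp only [if_true] at hcon
      have h1 := hcon.mono a1
      obtain ⟨hbg, -⟩ := hid ψ c hc ((h1.mono (List.prefix_append _ _)).mono
        (List.prefix_append _ _))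
      have h2 := con_last (h1.mono (List.prefix_append _ _))
      rw [← hbg, mem_bitS] at h2
      exact h2.2 rfl

/-- The limit of an increasing sequence of positions. -/
lemma exists_limit (P : ℕ → Pos) (h1 : ∀ n, P n <+: P (n + 1))
    (h2 : ∀ n, (P n).length < (P (n + 1)).length) :
    ∃ m : Run, ∀ n, pos m (P n).length = P n := by
  have hlen : ∀ n, n ≤ (P n).length := by
    intro n; induction n with
    | zero => omega
    | succ n ih => have := h2 n; omega
  have hmono : ∀ {k n}, k ≤ n → P k <+: P n := by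
    intro k n hkn
    induction n, hkn using Nat.le_induction with
    | base => exact List.prefix_refl _
    | succ n _ ih => exact ih.trans (h1 n)
  refine ⟨fun k => (P (k + 1))[k]'(by have := hlen (k + 1); omega), fun n => ?_⟩
  apply List.ext_getElem
  · simp
  · intro k hk1 hk2
    simp only [pos, List.getElem_map, List.getElem_range]
    rcases le_total (k + 1) n with h | h
    · exact (hmono h).getElem _
    · exact ((hmono h).getElem _).symm

/-- The contents which are forced by some run against `τ`. -/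
def Aτ (τ : Pos → Edge → Bool) : Set (ℕ → Bool) :=
  {c | ∃ m : Run, Legal m ∧ (∀ n, (m n).2 = τ (pos m n) (m n).1) ∧ (White m).Nonempty ∧
    ∀ ψ c', OK c' → N ψ c' ∈ Poss m → E0 c' c}

theorem exists_inj_Aτ (hw : Wins B τ) (hB : ∀ c ∈ B, ∀ c', E0 c c' → c' ∈ B) :
    ∃ f : (ℕ → Bool) → (ℕ → Bool), Injective f ∧ ∀ s, f s ∈ Aτ τ := by
  classical
  obtain ⟨p0, hp0, u0, w0, us, U, hbase⟩ := phase1 hw
  obtain ⟨e0, hus, he0⟩ := exists_edge_at us (asked p0).toFinset
  have he0' : e0 ∉ asked p0 := by simpa using he0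
  obtain ⟨enc, henc⟩ : ∃ dec : ℕ → Edge, Surjective dec := by
    have : Nonempty Edge := ⟨e0⟩
    exact exists_surjective_nat Edge
  let Node := {p : Pos // Reach τ p ∧ p0 <+: p ∧ e0 ∉ asked p}
  have hstep : ∀ (p : Node) (k : ℕ), ∃ q : Bool → Node, (∀ b, p.1 <+: (q b).1 ∧
      p.1.length < (q b).1.length ∧ (enc k ≠ e0 → enc k ∈ asked (q b).1)) ∧
      ∃ g, ∀ b ψ c, OK c → Con (q b).1 (N ψ c) → c g = b := by
    intro p k
    obtain ⟨q, hq, hg⟩ := split hw hB hbase p.2.2.1 p.2.1 hus p.2.2.2 (enc k)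
    exact ⟨fun b => ⟨q b, (hq b).2.2.1, p.2.2.1.trans (hq b).1, (hq b).2.2.2.1⟩,
      fun b => ⟨(hq b).1, (hq b).2.1, (hq b).2.2.2.2⟩, hg⟩
  choose next hn1 hn2 using hstep
  let ch : (ℕ → Bool) → ℕ → Node := fun s n =>
    Nat.rec ⟨p0, hp0, List.prefix_refl _, he0'⟩ (fun k p => next p k (s k)) n
  have ch0 : ∀ s, ch s 0 = ⟨p0, hp0, List.prefix_refl _, he0'⟩ := fun s => rfl
  have chs : ∀ s n, ch s (n + 1) = next (ch s n) n (s n) := fun s n => rfl
  have hlim : ∀ s, ∃ m : Run, ∀ n, pos m (ch s n).1.length = (ch s n).1 := fun s =>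
    exists_limit (fun n => (ch s n).1) (fun n => by rw [chs]; exact (hn1 _ _ _).1)
      (fun n => by rw [chs]; exact (hn1 _ _ _).2.1)
  choose m hm using hlim
  have hlen : ∀ s n, n ≤ (ch s n).1.length := by
    intro s n; induction n with
    | zero => omega
    | succ n ih =>
      have := (hn1 (ch s n) n (s n)).2.1
      rw [chs]; omega
  have hR : ∀ s n, Reach τ (pos (m s) n) := by
    intro s n
    have h1 := pos_prefix (m s) (hlen s n)
    rw [hm] at h1
    exact (ch s n).2.1.restr h1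
  have hne : ∀ s n, (m s n).1 ≠ e0 := by
    intro s n hn
    apply (ch s (n + 1)).2.2.2
    exact (congrArg (fun l => e0 ∈ asked l) (hm s (n + 1))).mp
      (mem_asked_pos.2 ⟨n, by have := hlen s (n + 1); omega, hn⟩)
  have hall : ∀ s (e : Edge), e ≠ e0 → ∃ n, (m s n).1 = e := by
    intro s e he
    obtain ⟨k, rfl⟩ := henc e
    have h1 := (hn1 (ch s k) k (s k)).2.2 he
    rw [← chs] at h1
    have h2 := (congrArg (fun l => enc k ∈ asked l) (hm s (k + 1))).mpr h1
    obtain ⟨n, -, hn⟩ := mem_asked_pos.1 h2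
    exact ⟨n, hn⟩
  have hwin : ∀ s, ∃ c, OK c ∧ ∃ φ, N φ c ∈ Poss (m s) := by
    intro s
    obtain ⟨-, φ, c, hc, -, hG⟩ := win_run hw (hR s) (hne s)
    exact ⟨c, hc, φ, hG⟩
  choose f hfok hf using hwin
  refine ⟨f, ?_, ?_⟩
  · intro s s' hss
    by_contra hne'
    have hex : ∃ n, s n ≠ s' n := by
      by_contra hcon
      push Not at hcon
      exact hne' (funext hcon)
    have hmin : ∀ k < Nat.find hex, s k = s' k := fun k hk => by
      have := Nat.find_min hex hk
      simpa using this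
    have hdiff := Nat.find_spec hex
    set n := Nat.find hex with hn
    have hch : ∀ k ≤ n, ch s k = ch s' k := by
      intro k
      induction k with
      | zero => intro _; rw [ch0, ch0]
      | succ k ih =>
        intro hk
        rw [chs, chs, ih (by omega), hmin k (by omega)]
    obtain ⟨g, hg⟩ := hn2 (ch s n) n
    obtain ⟨φ, hφ⟩ := hf s
    obtain ⟨φ', hφ'⟩ := hf s'
    have h1 : f s g = s n := by
      apply hg (s n) φ (f s) (hfok s)
      rw [← chs]
      exact (congrArg (fun l => Con l (N φ (f s))) (hm s (n + 1))).mp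
        (con_pos (reach_run (hR s)).1 hφ _)
    have h2 : f s' g = s' n := by
      apply hg (s' n) φ' (f s') (hfok s')
      rw [hch n le_rfl, ← chs]
      exact (congrArg (fun l => Con l (N φ' (f s'))) (hm s' (n + 1))).mp
        (con_pos (reach_run (hR s')).1 hφ' _)
    apply hdiff
    rw [← h1, ← h2, hss]
  · intro s
    obtain ⟨hL, hτ⟩ := reach_run (hR s)
    refine ⟨m s, hL, hτ, ⟨e0, hne s⟩, fun ψ c' hc' hG' => ?_⟩
    obtain ⟨φ, hφ⟩ := hf s
    refine E0_of_agr (e := e0.1) (φ := ψ) (ψ := φ) ?_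
    intro u _ w _ huw
    by_cases hd : u = w
    · subst hd; simp
    · have hnd : ¬ (s(u, w) : Sym2 ℕ).IsDiag := by simpa using hd
      obtain ⟨n, hn⟩ := hall s ⟨s(u, w), hnd⟩ (fun h => huw (by rw [← h]))
      have hask : (⟨s(u, w), hnd⟩ : Edge) ∈ asked (pos (m s) (n + 1)) :=
        mem_asked_pos.2 ⟨n, by omega, hn⟩
      exact con_agree (con_pos hL hG' (n + 1)) (con_pos hL hφ (n + 1)) hask

end V11258.EQ
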